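import Pool.Agent.Y796.QS.C

set_option autoImplicit false

/-! Existence of the family of balls. -/

namespace Pool.Agent.Y796.QS

open Real

/-- the inner radius for a given factor -/
theorem exponents {a p R L : ℝ} (n : ℕ) (ha1 : a < 1) (hR : 0 < R) (hL : 1 ≤ L) :
    0 < R * L ^ (-(1 / (1 - a))) ∧ R * L ^ (-(1 / (1 - a))) ≤ R ∧
    (R / (R * L ^ (-(1 / (1 - a))))) ^ (1 - a) = L ∧
    L ^ p * (R * L ^ (-(1 / (1 - a)))) ^ n = R ^ n * L ^ (p - n / (1 - a)) := by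
  have hL0 : 0 < L := by linarith
  have h1a : 0 < 1 - a := by linarith
  have hp : 0 < L ^ (-(1 / (1 - a))) := Real.rpow_pos_of_pos hL0 _
  refine ⟨mul_pos hR hp, ?_, ?_, ?_⟩
  · have : L ^ (-(1 / (1 - a))) ≤ 1 :=
      Real.rpow_le_one_of_one_le_of_nonpos hL (by
        have : 0 < 1 / (1 - a) := by positivity
        linarith)
    nlinarith
  · have e : R / (R * L ^ (-(1 / (1 - a)))) = L ^ (1 / (1 - a)) := by
      rw [Real.rpow_neg hL0.le]; field_simp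
    rw [e, ← Real.rpow_mul hL0.le, one_div_mul_cancel h1a.ne', Real.rpow_one]
  · rw [mul_pow, ← Real.rpow_natCast (L ^ (-(1 / (1 - a)))) n, ← Real.rpow_mul hL0.le,
      Real.rpow_sub hL0, Real.rpow_mul hL0.le, Real.rpow_neg hL0.le]
    have e2 : (L ^ (1 / (1 - a)))⁻¹ ^ (n : ℝ) = (L ^ ((n : ℝ) / (1 - a)))⁻¹ := by
      rw [Real.inv_rpow (Real.rpow_nonneg hL0.le _), ← Real.rpow_mul hL0.le]
      congr 2
      ring
    rw [e2]
    ring

/-- choice of the subdivision -/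
theorem exists_M {ω : ℝ → ℝ} (hω : Filter.Tendsto (fun s => ω s / s) (nhdsWithin 0 (Set.Ioi 0))
    Filter.atTop) (L : ℝ) :
    ∃ M : ℕ, 1 ≤ M ∧ ∀ s : ℝ, 0 < s → s ≤ 1 / M → 2 * L * s ≤ s ^ (1 / 2 : ℝ) ∧
      2 * L * s ≤ ω s := by
  have h1 : ∀ᶠ s in nhdsWithin (0 : ℝ) (Set.Ioi 0), 2 * L * s ≤ ω s := by
    filter_upwards [hω.eventually_ge_atTop (2 * L), self_mem_nhdsWithin] with s hs hs0
    rw [Set.mem_Ioi] at hs0
    rwa [le_div_iff₀ hs0] at hs
  have h2 : ∀ᶠ s in nhdsWithin (0 : ℝ) (Set.Ioi 0), 2 * L * s ≤ s ^ (1 / 2 : ℝ) := by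
    have hc : Filter.Tendsto (fun s : ℝ => 2 * L * s ^ (1 / 2 : ℝ)) (nhdsWithin 0 (Set.Ioi 0))
        (nhds 0) := by
      have : Continuous fun s : ℝ => 2 * L * s ^ (1 / 2 : ℝ) :=
        continuous_const.mul (continuous_id.rpow_const fun _ => Or.inr (by norm_num))
      have := this.tendsto 0
      rw [Real.zero_rpow (by norm_num), mul_zero] at this
      exact this.mono_left nhdsWithin_le_nhds
    filter_upwards [hc.eventually (gt_mem_nhds (by norm_num : (0 : ℝ) < 1)),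
      self_mem_nhdsWithin] with s hs hs0
    rw [Set.mem_Ioi] at hs0
    have e : s = s ^ (1 / 2 : ℝ) * s ^ (1 / 2 : ℝ) := by
      rw [← Real.rpow_add hs0]; norm_num
    have h3 : 0 < s ^ (1 / 2 : ℝ) := Real.rpow_pos_of_pos hs0 _
    calc 2 * L * s = (2 * L * s ^ (1 / 2 : ℝ)) * s ^ (1 / 2 : ℝ) := by
          nth_rewrite 1 [e]; ring
      _ ≤ 1 * s ^ (1 / 2 : ℝ) := by gcongr
      _ = _ := one_mul _
  have h3 := h2.and h1
  rw [eventually_nhdsWithin_iff, Metric.eventually_nhds_iff] at h3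
  obtain ⟨ε, hε, h3⟩ := h3
  obtain ⟨m, hm⟩ := exists_nat_gt (1 / ε)
  refine ⟨m + 1, by omega, fun s hs hs1 => ?_⟩
  apply h3 _ (Set.mem_Ioi.2 hs)
  rw [Real.dist_eq, sub_zero, abs_of_pos hs]
  refine hs1.trans_lt ?_
  rw [div_lt_iff₀ (by positivity)]
  rw [div_lt_iff₀ hε] at hm
  push_cast
  nlinarith

section grid

variable (n : ℕ) (M : ℕ → ℕ)

/-- side of the cells -/
noncomputable def hs (j : ℕ) : ℝ := (1 / 2) ^ j / M j

/-- the index set -/
abbrev Idx : Type := Σ j : ℕ, (Fin n → Fin (M j))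

/-- centres -/
noncomputable def cc (i : Idx n M) : EuclideanSpace ℝ (Fin n) :=
  WithLp.toLp 2 (fun l => (1 / 2 : ℝ) ^ i.1 + ((i.2 l : ℕ) + 1 / 2 : ℝ) * hs M i.1)

/-- radii -/
noncomputable def RR (i : Idx n M) : ℝ := hs M i.1 / 4

variable {n M}

theorem hs_pos (hM : ∀ j, 1 ≤ M j) (j : ℕ) : 0 < hs M j := by
  have : (0 : ℝ) < M j := by exact_mod_cast hM j
  unfold hs; positivity

theorem hs_le (hM : ∀ j, 1 ≤ M j) (j : ℕ) : hs M j ≤ (1 / 2) ^ j := by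
  have : (1 : ℝ) ≤ M j := by exact_mod_cast hM j
  unfold hs
  exact div_le_self (by positivity) this

theorem M_mul_hs (hM : ∀ j, 1 ≤ M j) (j : ℕ) : M j * hs M j = (1 / 2) ^ j := by
  have : (0 : ℝ) < M j := by exact_mod_cast hM j
  unfold hs; field_simp

/-- the coordinates of the centres -/
theorem cc_coord (hM : ∀ j, 1 ≤ M j) (i : Idx n M) (l : Fin n) :
    (1 / 2 : ℝ) ^ i.1 + hs M i.1 / 2 ≤ cc n M i l ∧
      cc n M i l ≤ 2 * (1 / 2 : ℝ) ^ i.1 - hs M i.1 / 2 := by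
  have h := hs_pos hM i.1
  have hk : ((i.2 l : ℕ) : ℝ) + 1 ≤ M i.1 := by exact_mod_cast (i.2 l).2
  have h0 : (0 : ℝ) ≤ (i.2 l : ℕ) := Nat.cast_nonneg _
  have e := M_mul_hs hM i.1
  have ec : cc n M i l = (1 / 2 : ℝ) ^ i.1 + ((i.2 l : ℕ) + 1 / 2 : ℝ) * hs M i.1 := rfl
  rw [ec]
  constructor
  · nlinarith
  · nlinarith

theorem cc_norm (hn : 1 ≤ n) (hM : ∀ j, 1 ≤ M j) (i : Idx n M) :
    ‖cc n M i‖ ≤ 2 * n * (1 / 2 : ℝ) ^ i.1 := by
  have hn' : (1 : ℝ) ≤ n := by exact_mod_cast hn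
  have hp : (0 : ℝ) < (1 / 2 : ℝ) ^ i.1 := by positivity
  apply le_of_sq_le_sq _ (by positivity)
  rw [EuclideanSpace.norm_sq_eq]
  calc ∑ l, ‖cc n M i l‖ ^ 2 ≤ ∑ _l : Fin n, (2 * (1 / 2 : ℝ) ^ i.1) ^ 2 := by
        apply Finset.sum_le_sum
        intro l _
        have h := cc_coord hM i l
        have h2 := hs_pos hM i.1
        rw [Real.norm_eq_abs, sq_abs]
        apply pow_le_pow_left₀ <;> linarith
    _ = n * (2 * (1 / 2 : ℝ) ^ i.1) ^ 2 := by simp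
    _ ≤ (2 * n * (1 / 2 : ℝ) ^ i.1) ^ 2 := by
        have : (2 * n * (1 / 2 : ℝ) ^ i.1) ^ 2 = n * (n * (2 * (1 / 2 : ℝ) ^ i.1) ^ 2) := by ring
        rw [this]
        have : 0 < (n : ℝ) * (2 * (1 / 2 : ℝ) ^ i.1) ^ 2 := by positivity
        nlinarith

theorem coord_le_norm (x : EuclideanSpace ℝ (Fin n)) (l : Fin n) : |x l| ≤ ‖x‖ := by
  have := PiLp.norm_apply_le x l
  simpa using this

theorem grid_disj (hn : 1 ≤ n) (hM : ∀ j, 1 ≤ M j) (i i' : Idx n M) (hne : i ≠ i') :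
    RR n M i + RR n M i' < ‖cc n M i - cc n M i'‖ := by
  -- different blocks
  have key : ∀ i i' : Idx n M, i.1 < i'.1 → RR n M i + RR n M i' < ‖cc n M i - cc n M i'‖ := by
    intro i i' hlt
    have hi := (cc_coord hM i ⟨0, hn⟩).1
    have hi' := (cc_coord hM i' ⟨0, hn⟩).2
    have h1 := hs_pos hM i.1
    have h2 := hs_pos hM i'.1
    have h3 : 2 * (1 / 2 : ℝ) ^ i'.1 ≤ (1 / 2 : ℝ) ^ i.1 := by
      have : (1 / 2 : ℝ) ^ i'.1 ≤ (1 / 2 : ℝ) ^ (i.1 + 1) :=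
        pow_le_pow_of_le_one (by norm_num) (by norm_num) hlt
      rw [pow_succ] at this
      linarith
    have h4 := coord_le_norm (cc n M i - cc n M i') ⟨0, hn⟩
    have h5 : (cc n M i - cc n M i') ⟨0, hn⟩ = cc n M i ⟨0, hn⟩ - cc n M i' ⟨0, hn⟩ := rfl
    have h6 := le_abs_self ((cc n M i - cc n M i') ⟨0, hn⟩)
    unfold RR
    linarith
  rcases lt_trichotomy i.1 i'.1 with h | h | h
  · exact key i i' h
  · obtain ⟨j, k⟩ := i
    obtain ⟨j', k'⟩ := i'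
    simp only at h
    subst h
    have hk : k ≠ k' := fun hk => hne (by rw [hk])
    obtain ⟨l, hl⟩ := Function.ne_iff.1 hk
    have hl' : ((k l : ℕ) : ℝ) ≠ ((k' l : ℕ) : ℝ) := by
      intro h; exact hl (Fin.ext (by exact_mod_cast h))
    have h1 := hs_pos hM j
    have h4 := coord_le_norm (cc n M ⟨j, k⟩ - cc n M ⟨j, k'⟩) l
    have h5 : (cc n M ⟨j, k⟩ - cc n M ⟨j, k'⟩) l = ((k l : ℕ) - (k' l : ℕ) : ℝ) * hs M j := by
      have : (cc n M ⟨j, k⟩ - cc n M ⟨j, k'⟩) l = cc n M ⟨j, k⟩ l - cc n M ⟨j, k'⟩ l := rfl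
      rw [this]
      simp only [cc]
      ring
    have h6 : (1 : ℝ) ≤ |((k l : ℕ) - (k' l : ℕ) : ℝ)| := by
      have : ((k l : ℕ) : ℤ) - ((k' l : ℕ) : ℤ) ≠ 0 := by
        intro h
        apply hl'
        have : ((k l : ℕ) : ℤ) = ((k' l : ℕ) : ℤ) := by omega
        exact_mod_cast this
      have := Int.one_le_abs this
      exact_mod_cast this
    rw [h5, abs_mul, abs_of_pos h1] at h4
    unfold RR
    simp only
    nlinarith
  · rw [norm_sub_rev, add_comm]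
    exact key i' i h

theorem grid_loc (hn : 1 ≤ n) (hM : ∀ j, 1 ≤ M j) (x : EuclideanSpace ℝ (Fin n)) (hx : x ≠ 0) :
    ∃ ε > 0, {i : Idx n M | ‖x - cc n M i‖ ≤ RR n M i + ε}.Finite := by
  have hx0 : 0 < ‖x‖ := norm_pos_iff.2 hx
  refine ⟨‖x‖ / 2, by positivity, ?_⟩
  have hn' : (1 : ℝ) ≤ n := by exact_mod_cast hn
  obtain ⟨J, hJ⟩ := exists_pow_lt_of_lt_one (y := (1 / 2 : ℝ))
    (by positivity : 0 < ‖x‖ / (2 * (2 * n + 1))) (by norm_num)
  refine Set.Finite.subset (Finset.finite_toSet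
    ((Finset.range (J + 1)).sigma fun j => (Finset.univ : Finset (Fin n → Fin (M j))))) ?_
  intro i hi
  rw [Set.mem_setOf_eq] at hi
  rw [Finset.mem_coe, Finset.mem_sigma, Finset.mem_range]
  refine ⟨?_, Finset.mem_univ _⟩
  by_contra hlt
  have h1 : (1 / 2 : ℝ) ^ i.1 ≤ (1 / 2 : ℝ) ^ J :=
    pow_le_pow_of_le_one (by norm_num) (by norm_num) (by omega)
  have h2 := cc_norm hn hM i
  have h3 : RR n M i ≤ (1 / 2 : ℝ) ^ i.1 := by
    have := hs_le hM i.1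
    have := hs_pos hM i.1
    unfold RR; linarith
  have h4 : ‖x‖ ≤ ‖x - cc n M i‖ + ‖cc n M i‖ := by
    calc ‖x‖ = ‖(x - cc n M i) + cc n M i‖ := by congr 1; abel
      _ ≤ _ := norm_add_le _ _
  have h5 : (2 * n + 1) * (1 / 2 : ℝ) ^ i.1 < ‖x‖ / 2 := by
    have h6 : (1 / 2 : ℝ) ^ i.1 < ‖x‖ / (2 * (2 * n + 1)) := h1.trans_lt hJ
    rw [lt_div_iff₀ (by positivity)] at h6
    linarith
  nlinarith

end grid

theorem exists_fam (n : ℕ) (hn : 1 ≤ n) {a : ℝ} {ω : ℝ → ℝ} (ha : 0 < a) (ha1 : a < 1)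
    (hω : Filter.Tendsto (fun s => ω s / s) (nhdsWithin 0 (Set.Ioi 0)) Filter.atTop) :
    ∃ (ι : Type) (_ : Countable ι) (c : ι → EuclideanSpace ℝ (Fin n)) (R t : ι → ℝ),
      Fam a ω (2 * n) c R t ∧
      ∀ p : ℝ, n / (1 - a) < p →
        ∑' i, ENNReal.ofReal (((R i / t i) ^ (1 - a)) ^ p * t i ^ n) = ⊤ := by
  set L : ℕ → ℝ := fun j => 2 ^ (j ^ 2) with hL
  have hL1 : ∀ j, 1 ≤ L j := fun j => one_le_pow₀ (by norm_num)
  choose M hM1 hM2 using fun j => exists_M hω (L j)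
  have hRpos : ∀ i : Idx n M, 0 < RR n M i := fun i => by
    have := hs_pos hM1 i.1
    unfold RR; linarith
  have hRle : ∀ i : Idx n M, RR n M i ≤ 1 := fun i => by
    have h1 := hs_le hM1 i.1
    have h2 : (1 / 2 : ℝ) ^ i.1 ≤ 1 := pow_le_one₀ (by norm_num) (by norm_num)
    unfold RR; linarith
  have hR2 : ∀ i : Idx n M, 2 * RR n M i ≤ 1 / M i.1 := fun i => by
    have h0 := hs_pos hM1 i.1
    have hMj : (0 : ℝ) < M i.1 := by exact_mod_cast hM1 i.1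
    have h1 : hs M i.1 ≤ 1 / M i.1 := by
      unfold hs
      apply div_le_div_of_nonneg_right _ hMj.le
      exact pow_le_one₀ (by norm_num) (by norm_num)
    unfold RR; linarith
  refine ⟨Idx n M, inferInstance, cc n M, RR n M,
    fun i => RR n M i * L i.1 ^ (-(1 / (1 - a))), ?_, ?_⟩
  · exact
      { a0 := ha
        a1 := ha1
        R0 := hRpos
        R1 := hRle
        t0 := fun i => (exponents (p := 0) n ha1 (hRpos i) (hL1 i.1)).1
        tR := fun i => (exponents (p := 0) n ha1 (hRpos i) (hL1 i.1)).2.1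
        disj := grid_disj hn hM1
        hhalf := fun i s hs hs2 => by
          rw [(exponents (p := 0) n ha1 (hRpos i) (hL1 i.1)).2.2.1]
          exact (hM2 i.1 s hs (hs2.trans (hR2 i))).1
        hω := fun i s hs hs2 => by
          rw [(exponents (p := 0) n ha1 (hRpos i) (hL1 i.1)).2.2.1]
          exact (hM2 i.1 s hs (hs2.trans (hR2 i))).2
        bdd := fun i => by
          refine (cc_norm hn hM1 i).trans ?_
          have h2 : (1 / 2 : ℝ) ^ i.1 ≤ 1 := pow_le_one₀ (by norm_num) (by norm_num)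
          have : (0 : ℝ) ≤ 2 * n := by positivity
          nlinarith
        loc := grid_loc hn hM1 }
  · intro p hp
    rw [ENNReal.tsum_sigma', ← top_le_iff]
    set δ := p - n / (1 - a) with hδ
    have hδ0 : 0 < δ := by linarith
    obtain ⟨j0, hj0⟩ := exists_nat_gt (3 * (n : ℝ) / δ)
    have h1 : ∀ j : ℕ, j0 + 1 ≤ j → (1 : ENNReal) ≤ ∑' k : Fin n → Fin (M j),
        ENNReal.ofReal (((RR n M ⟨j, k⟩ / (RR n M ⟨j, k⟩ * L j ^ (-(1 / (1 - a))))) ^ (1 - a)) ^ p *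
          (RR n M ⟨j, k⟩ * L j ^ (-(1 / (1 - a)))) ^ n) := by
      intro j hj
      have hMj : (0 : ℝ) < M j := by exact_mod_cast hM1 j
      have e : ∀ k : Fin n → Fin (M j),
          ENNReal.ofReal (((RR n M ⟨j, k⟩ / (RR n M ⟨j, k⟩ * L j ^ (-(1 / (1 - a))))) ^ (1 - a)) ^ p *
          (RR n M ⟨j, k⟩ * L j ^ (-(1 / (1 - a)))) ^ n) =
          ENNReal.ofReal ((hs M j / 4) ^ n * L j ^ δ) := by
        intro k
        obtain ⟨-, -, h3, h4⟩ := exponents (p := p) n ha1 (hRpos ⟨j, k⟩) (hL1 j)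
        rw [h3, h4]
        rfl
      simp_rw [e]
      rw [tsum_fintype, Finset.sum_const, Finset.card_univ, Fintype.card_fun, Fintype.card_fin,
        Fintype.card_fin, nsmul_eq_mul, ← ENNReal.ofReal_natCast, ← ENNReal.ofReal_mul
        (by positivity), ← ENNReal.ofReal_one]
      apply ENNReal.ofReal_le_ofReal
      have hh2 : hs M j / 4 = (4 * 2 ^ j * M j : ℝ)⁻¹ := by
        unfold hs
        rw [one_div_pow]
        field_simp
      rw [hh2]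
      push_cast
      -- `(4 * 2 ^ j) ^ n ≤ L j ^ δ`
      have hj1 : (1 : ℝ) ≤ j := by exact_mod_cast (by omega : 1 ≤ j)
      have h5 : (4 * 2 ^ j : ℝ) ^ n ≤ L j ^ δ := by
        have e1 : (4 * 2 ^ j : ℝ) ^ n = (2 : ℝ) ^ (((2 + j : ℕ) : ℝ) * n) := by
          rw [Real.rpow_mul (by norm_num), Real.rpow_natCast, Real.rpow_natCast, pow_add]
          norm_num
        have e2 : L j ^ δ = (2 : ℝ) ^ (((j ^ 2 : ℕ) : ℝ) * δ) := by
          rw [Real.rpow_mul (by norm_num), Real.rpow_natCast]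
        rw [e1, e2]
        apply Real.rpow_le_rpow_of_exponent_le (by norm_num)
        have h6 : 3 * (n : ℝ) < j * δ := by
          rw [div_lt_iff₀ hδ0] at hj0
          have : (j0 : ℝ) ≤ j := by exact_mod_cast (by omega : j0 ≤ j)
          nlinarith
        push_cast
        have hn0 : (0 : ℝ) ≤ n := Nat.cast_nonneg n
        calc ((2 : ℝ) + j) * n ≤ (3 * j) * n := by nlinarith
          _ = j * (3 * n) := by ring
          _ ≤ j * (j * δ) := by nlinarith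
          _ = (j : ℝ) ^ 2 * δ := by ring
      calc (1 : ℝ) = (M j : ℝ) ^ n * ((4 * 2 ^ j * M j : ℝ)⁻¹ ^ n * (4 * 2 ^ j) ^ n) := by
            rw [← mul_pow, ← mul_pow]
            have : (M j : ℝ) * ((4 * 2 ^ j * M j : ℝ)⁻¹ * (4 * 2 ^ j)) = 1 := by field_simp
            rw [this, one_pow]
        _ ≤ (M j : ℝ) ^ n * ((4 * 2 ^ j * M j : ℝ)⁻¹ ^ n * L j ^ δ) := by
            gcongr
    calc (⊤ : ENNReal) = ∑' _j : ℕ, (1 : ENNReal) := by
          rw [ENNReal.tsum_const_eq_top_of_ne_zero one_ne_zero]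
      _ ≤ ∑' j : ℕ, ∑' k : Fin n → Fin (M (j + (j0 + 1))),
          ENNReal.ofReal (((RR n M ⟨j + (j0 + 1), k⟩ / (RR n M ⟨j + (j0 + 1), k⟩ *
            L (j + (j0 + 1)) ^ (-(1 / (1 - a))))) ^ (1 - a)) ^ p *
          (RR n M ⟨j + (j0 + 1), k⟩ * L (j + (j0 + 1)) ^ (-(1 / (1 - a)))) ^ n) :=
          ENNReal.tsum_le_tsum fun j => h1 (j + (j0 + 1)) (by omega)
      _ ≤ _ := ENNReal.tsum_comp_le_tsum_of_injective (add_left_injective (j0 + 1)) (fun j : ℕ =>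
          ∑' k : Fin n → Fin (M j),
          ENNReal.ofReal (((RR n M ⟨j, k⟩ / (RR n M ⟨j, k⟩ * L j ^ (-(1 / (1 - a))))) ^ (1 - a)) ^ p *
          (RR n M ⟨j, k⟩ * L j ^ (-(1 / (1 - a)))) ^ n))

end Pool.Agent.Y796.QS
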