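import Mathlib

set_option autoImplicit false

/-! The truncated radial stretching of one ball. -/

namespace Pool.Agent.Y796.QS

open Real

/-- truncated radius -/
noncomputable def rho (R t r : ℝ) : ℝ := max t (min r R)

/-- stretching factor -/
noncomputable def sf (a R t r : ℝ) : ℝ := (R / rho R t r) ^ (1 - a)

section scalar
variable {a R t : ℝ}

theorem rho_pos (ht : 0 < t) (r : ℝ) : 0 < rho R t r := lt_of_lt_of_le ht (le_max_left _ _)

theorem rho_le (htR : t ≤ R) (r : ℝ) : rho R t r ≤ R := max_le htR (min_le_right _ _)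

theorem rho_mono {r s : ℝ} (h : s ≤ r) : rho R t s ≤ rho R t r :=
  max_le_max le_rfl (min_le_min h le_rfl)

theorem rho_ratio (hR : 0 < R) (ht : 0 < t) {r s : ℝ} (hs : 0 < s) (h : s ≤ r) :
    rho R t r * s ≤ r * rho R t s := by
  unfold rho
  have hr : 0 < r := hs.trans_le h
  rcases le_total t (min r R) with h1 | h1
  · rw [max_eq_right h1]
    rcases le_total r R with h2 | h2
    · rw [min_eq_left h2]
      have : s ≤ max t (min s R) := by
        rw [min_eq_left (h.trans h2)]; exact le_max_right _ _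
      exact mul_le_mul_of_nonneg_left this hr.le
    · rw [min_eq_right h2]
      rcases le_total s R with h3 | h3
      · have : s ≤ max t (min s R) := by
          rw [min_eq_left h3]; exact le_max_right _ _
        calc R * s ≤ r * s := mul_le_mul_of_nonneg_right h2 hs.le
          _ ≤ _ := mul_le_mul_of_nonneg_left this hr.le
      · have : R ≤ max t (min s R) := by
          rw [min_eq_right h3]; exact le_max_right _ _
        calc R * s ≤ R * r := mul_le_mul_of_nonneg_left h hR.le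
          _ = r * R := mul_comm _ _
          _ ≤ _ := mul_le_mul_of_nonneg_left this hr.le
  · rw [max_eq_left h1]
    calc t * s ≤ t * r := mul_le_mul_of_nonneg_left h ht.le
      _ = r * t := mul_comm _ _
      _ ≤ _ := mul_le_mul_of_nonneg_left (le_max_left _ _) hr.le

theorem sf_pos (hR : 0 < R) (ht : 0 < t) (r : ℝ) : 0 < sf a R t r :=
  Real.rpow_pos_of_pos (div_pos hR (rho_pos ht r)) _

theorem one_le_sf (ha1 : a < 1) (ht : 0 < t) (htR : t ≤ R) (r : ℝ) :
    1 ≤ sf a R t r := by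
  apply Real.one_le_rpow _ (by linarith)
  rw [one_le_div (rho_pos ht r)]
  exact rho_le htR r

theorem sf_anti (hR : 0 < R) (ha1 : a < 1) (ht : 0 < t) {r s : ℝ} (h : s ≤ r) :
    sf a R t r ≤ sf a R t s := by
  apply Real.rpow_le_rpow (div_pos hR (rho_pos ht r)).le _ (by linarith)
  exact div_le_div_of_nonneg_left hR.le (rho_pos ht s) (rho_mono h)

theorem sf_eq_one (ht : 0 < t) (htR : t ≤ R) {r : ℝ} (h : R ≤ r) : sf a R t r = 1 := by
  have : rho R t r = R := by
    unfold rho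
    rw [min_eq_right h, max_eq_right htR]
  unfold sf
  rw [this, div_self (by linarith), Real.one_rpow]

theorem sf_eq_of_le (htR : t ≤ R) {r : ℝ} (h : r ≤ t) : sf a R t r = (R / t) ^ (1 - a) := by
  have : rho R t r = t := by
    unfold rho
    rw [min_eq_left (h.trans htR), max_eq_left h]
  unfold sf
  rw [this]

theorem sf_eq_mid {r : ℝ} (h : t ≤ r) (h2 : r ≤ R) : sf a R t r = (R / r) ^ (1 - a) := by
  have : rho R t r = r := by
    unfold rho
    rw [min_eq_left h2, max_eq_right h]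
  unfold sf
  rw [this]

/-- strict monotonicity of `r ↦ sf r * r`. -/
theorem sf_mul_lt (hR : 0 < R) (ha : 0 < a) (ha1 : a < 1) (ht : 0 < t)
    {r s : ℝ} (hs : 0 ≤ s) (h : s < r) : sf a R t s * s < sf a R t r * r := by
  have hr : 0 < r := hs.trans_lt h
  rcases hs.eq_or_lt with rfl | hs
  · rw [mul_zero]; exact mul_pos (sf_pos hR ht r) hr
  have h1 := rho_ratio (R := R) (t := t) hR ht hs h.le
  have hps := rho_pos (R := R) ht s
  have hpr := rho_pos (R := R) ht r
  -- sf s = (R/rho s)^(1-a) = (R/rho r)^(1-a) * (rho r/rho s)^(1-a)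
  have e : sf a R t s = sf a R t r * (rho R t r / rho R t s) ^ (1 - a) := by
    unfold sf
    rw [← Real.mul_rpow (div_pos hR hpr).le (div_pos hpr hps).le]
    congr 1
    field_simp
  have h2 : rho R t r / rho R t s ≤ r / s := by
    rw [div_le_div_iff₀ hps hs]; linarith
  have h3 : (rho R t r / rho R t s) ^ (1 - a) ≤ (r / s) ^ (1 - a) :=
    Real.rpow_le_rpow (div_pos hpr hps).le h2 (by linarith)
  have h4 : (r / s) ^ (1 - a) < r / s := by
    have h5 : 1 < r / s := by rw [one_lt_div hs]; exact h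
    calc (r / s) ^ (1 - a) < (r / s) ^ (1 : ℝ) :=
          Real.rpow_lt_rpow_of_exponent_lt h5 (by linarith)
      _ = r / s := Real.rpow_one _
  rw [e]
  have hp := sf_pos (a := a) hR ht r
  calc sf a R t r * (rho R t r / rho R t s) ^ (1 - a) * s
      ≤ sf a R t r * (r / s) ^ (1 - a) * s := by gcongr
    _ < sf a R t r * (r / s) * s := by gcongr
    _ = sf a R t r * r := by field_simp

theorem sf_mul_le (hR : 0 < R) (ha : 0 < a) (ha1 : a < 1) (ht : 0 < t)
    {r s : ℝ} (hs : 0 ≤ s) (h : s ≤ r) : sf a R t s * s ≤ sf a R t r * r := by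
  rcases h.eq_or_lt with rfl | h
  · exact le_rfl
  · exact (sf_mul_lt hR ha ha1 ht hs h).le

theorem sf_mul_le_R (hR : 0 < R) (ha : 0 < a) (ha1 : a < 1) (ht : 0 < t) (htR : t ≤ R)
    {r : ℝ} (hs : 0 ≤ r) (h : r ≤ R) : sf a R t r * r ≤ R := by
  have := sf_mul_le (a := a) hR ha ha1 ht hs h
  rwa [sf_eq_one ht htR le_rfl, one_mul] at this

/-- the Hölder type bound for the factor, when `R^(1-a) = t^(α-a)`. -/
theorem sf_holder (hR : 0 < R) (ha : 0 < a) (ha1 : a < 1) (ht : 0 < t) (htR : t ≤ R) {α : ℝ}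
    (haα : a < α) (hα1 : α < 1) (hk : R ^ (1 - a) = t ^ (α - a)) {s : ℝ} (hs : 0 < s) :
    sf a R t (s / 2) * s ≤ s + 2 * s ^ α := by
  have hsα : 0 < s ^ α := Real.rpow_pos_of_pos hs _
  rcases le_total R (s / 2) with h | h
  · rw [sf_eq_one ht htR h]; nlinarith
  · have hρ := rho_pos (R := R) ht (s / 2)
    have h1 : s / 2 ≤ rho R t (s / 2) := by
      unfold rho; rw [min_eq_left h]; exact le_max_right _ _
    have h2 : t ≤ rho R t (s / 2) := le_max_left _ _
    have e : sf a R t (s / 2) =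
        (t / rho R t (s / 2)) ^ (α - a) * (rho R t (s / 2)) ^ (α - 1) := by
      unfold sf
      rw [Real.div_rpow hR.le hρ.le, hk, Real.div_rpow ht.le hρ.le]
      rw [div_mul_eq_mul_div, div_eq_div_iff (Real.rpow_pos_of_pos hρ _).ne'
        (Real.rpow_pos_of_pos hρ _).ne']
      rw [mul_assoc, ← Real.rpow_add hρ]
      congr 1
      congr 1
      ring
    have h3 : (t / rho R t (s / 2)) ^ (α - a) ≤ 1 :=
      Real.rpow_le_one (div_pos ht hρ).le ((div_le_one hρ).2 h2) (by linarith)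
    have h4 : (rho R t (s / 2)) ^ (α - 1) ≤ (s / 2) ^ (α - 1) :=
      Real.rpow_le_rpow_of_nonpos (by positivity) h1 (by linarith)
    have h5 : (s / 2) ^ (α - 1) * s ≤ 2 * s ^ α := by
      rw [Real.div_rpow hs.le (by norm_num)]
      have h6 : s ^ (α - 1) * s = s ^ α := by
        nth_rewrite 2 [← Real.rpow_one s]
        rw [← Real.rpow_add hs]; congr 1; ring
      have h7 : ((2 : ℝ) ^ (α - 1))⁻¹ ≤ 2 := by
        rw [← Real.rpow_neg (by norm_num)]
        calc (2 : ℝ) ^ (-(α - 1)) ≤ 2 ^ (1 : ℝ) :=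
              Real.rpow_le_rpow_of_exponent_le (by norm_num) (by linarith)
          _ = 2 := Real.rpow_one _
      calc s ^ (α - 1) / 2 ^ (α - 1) * s = ((2 : ℝ) ^ (α - 1))⁻¹ * (s ^ (α - 1) * s) := by ring
        _ = ((2 : ℝ) ^ (α - 1))⁻¹ * s ^ α := by rw [h6]
        _ ≤ 2 * s ^ α := by gcongr
    have h8 : 0 < (rho R t (s / 2)) ^ (α - 1) := Real.rpow_pos_of_pos hρ _
    calc sf a R t (s / 2) * s
        = (t / rho R t (s / 2)) ^ (α - a) * (rho R t (s / 2)) ^ (α - 1) * s := by rw [e]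
      _ ≤ 1 * (s / 2) ^ (α - 1) * s := by gcongr
      _ ≤ 2 * s ^ α := by rw [one_mul]; exact h5
      _ ≤ s + 2 * s ^ α := by linarith

end scalar

section ball
variable {E : Type*} [NormedAddCommGroup E] [InnerProductSpace ℝ E]

/-- The stretching of the ball with centre `c` and radius `R`. -/
noncomputable def S (a R t : ℝ) (c x : E) : E := c + sf a R t ‖x - c‖ • (x - c)

/-- The displacement. -/
noncomputable def g (a R t : ℝ) (c x : E) : E := (sf a R t ‖x - c‖ - 1) • (x - c)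

variable {a R t : ℝ} {c : E}

theorem S_eq (x : E) : S a R t c x = x + g a R t c x := by
  unfold S g; rw [sub_smul, one_smul]; abel

theorem g_zero (ht : 0 < t) (htR : t ≤ R) {x : E} (h : R ≤ ‖x - c‖) : g a R t c x = 0 := by
  unfold g; rw [sf_eq_one ht htR h]; simp

theorem norm_g_le (hR : 0 < R) (ha : 0 < a) (ha1 : a < 1) (ht : 0 < t) (htR : t ≤ R)
    {x : E} (h : ‖x - c‖ ≤ R) : ‖g a R t c x‖ ≤ R - ‖x - c‖ := by
  unfold g
  rw [norm_smul, Real.norm_of_nonneg (by linarith [one_le_sf (a := a) ha1 ht htR ‖x - c‖])]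
  have := sf_mul_le_R (a := a) hR ha ha1 ht htR (norm_nonneg (x - c)) h
  linarith

theorem S_lip (hR : 0 < R) (ha : 0 < a) (ha1 : a < 1) (ht : 0 < t) (x y : E) :
    ‖S a R t c x - S a R t c y‖ ≤ 2 * (sf a R t (‖x - y‖ / 2) * ‖x - y‖) := by
  wlog h : ‖y - c‖ ≤ ‖x - c‖ generalizing x y
  · rw [norm_sub_rev, norm_sub_rev x y]; exact this y x (le_of_not_ge h)
  have e : S a R t c x - S a R t c y = sf a R t ‖x - c‖ • (x - y) +
      (sf a R t ‖x - c‖ - sf a R t ‖y - c‖) • (y - c) := by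
    unfold S
    generalize sf a R t ‖x - c‖ = m1
    generalize sf a R t ‖y - c‖ = m2
    simp only [smul_sub, sub_smul]
    abel
  have h1 : ‖x - y‖ / 2 ≤ ‖x - c‖ := by
    have : ‖x - y‖ ≤ ‖x - c‖ + ‖y - c‖ := by
      calc ‖x - y‖ = ‖(x - c) - (y - c)‖ := by congr 1; abel
        _ ≤ _ := norm_sub_le _ _
    linarith
  have h2 := sf_anti (a := a) hR ha1 ht h
  have h3 := sf_mul_le (a := a) hR ha ha1 ht (norm_nonneg (y - c)) h
  have h4 : ‖x - c‖ - ‖y - c‖ ≤ ‖x - y‖ := by
    calc ‖x - c‖ - ‖y - c‖ ≤ ‖(x - c) - (y - c)‖ := norm_sub_norm_le _ _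
      _ = ‖x - y‖ := by congr 1; abel
  have hp := sf_pos (a := a) hR ht ‖x - c‖
  have h5 : ‖S a R t c x - S a R t c y‖ ≤ 2 * (sf a R t ‖x - c‖ * ‖x - y‖) := by
    rw [e]
    refine (norm_add_le _ _).trans ?_
    rw [norm_smul, norm_smul, Real.norm_of_nonneg hp.le, Real.norm_of_nonpos (by linarith)]
    have : -(sf a R t ‖x - c‖ - sf a R t ‖y - c‖) * ‖y - c‖ ≤ sf a R t ‖x - c‖ * ‖x - y‖ := by
      have : sf a R t ‖x - c‖ * (‖x - c‖ - ‖y - c‖) ≤ sf a R t ‖x - c‖ * ‖x - y‖ := by gcongr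
      nlinarith
    linarith
  refine h5.trans ?_
  have := sf_anti (a := a) hR ha1 ht h1
  gcongr

theorem S_lip' (hR : 0 < R) (ha : 0 < a) (ha1 : a < 1) (ht : 0 < t) (x y : E) :
    ‖S a R t c x - S a R t c y‖ ≤ 2 * (R / t) ^ (1 - a) * ‖x - y‖ := by
  refine (S_lip hR ha ha1 ht x y).trans ?_
  have : sf a R t (‖x - y‖ / 2) ≤ (R / t) ^ (1 - a) := by
    apply Real.rpow_le_rpow (div_pos hR (rho_pos ht _)).le _ (by linarith)
    exact div_le_div_of_nonneg_left hR.le ht (le_max_left _ _)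
  rw [mul_assoc]
  gcongr

theorem g_lipschitz (hR : 0 < R) (ha : 0 < a) (ha1 : a < 1) (ht : 0 < t) :
    LipschitzWith (Real.toNNReal (2 * (R / t) ^ (1 - a) + 1)) (g a R t c) := by
  apply LipschitzWith.of_dist_le_mul
  intro x y
  have h0 : 0 < (R / t) ^ (1 - a) := Real.rpow_pos_of_pos (div_pos hR ht) _
  rw [Real.coe_toNNReal _ (by positivity), dist_eq_norm, dist_eq_norm]
  have e : g a R t c x - g a R t c y = (S a R t c x - S a R t c y) - (x - y) := by
    rw [S_eq, S_eq]; abel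
  rw [e]
  refine (norm_sub_le _ _).trans ?_
  have := S_lip' (c := c) hR ha ha1 ht x y
  linarith

theorem S_inj (hR : 0 < R) (ha : 0 < a) (ha1 : a < 1) (ht : 0 < t) :
    Function.Injective (S a R t c) := by
  intro x y h
  unfold S at h
  have h1 := add_left_cancel h
  have h2 : sf a R t ‖x - c‖ * ‖x - c‖ = sf a R t ‖y - c‖ * ‖y - c‖ := by
    have := congrArg norm h1
    rwa [norm_smul, norm_smul, Real.norm_of_nonneg (sf_pos hR ht _).le,
      Real.norm_of_nonneg (sf_pos hR ht _).le] at this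
  have h3 : ‖x - c‖ = ‖y - c‖ := by
    rcases lt_trichotomy ‖x - c‖ ‖y - c‖ with h4 | h4 | h4
    · exact absurd h2 (sf_mul_lt hR ha ha1 ht (norm_nonneg _) h4).ne
    · exact h4
    · exact absurd h2 (sf_mul_lt hR ha ha1 ht (norm_nonneg _) h4).ne'
  rw [h3] at h1
  have h5 := smul_right_injective E (sf_pos (a := a) hR ht ‖y - c‖).ne' h1
  have h6 : x - c = y - c := h5
  exact sub_left_injective h6

/-- the closed ball is mapped to itself. -/
theorem S_mem (hR : 0 < R) (ha : 0 < a) (ha1 : a < 1) (ht : 0 < t) (htR : t ≤ R)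
    {x : E} (h : ‖x - c‖ ≤ R) : ‖S a R t c x - c‖ ≤ R := by
  unfold S
  rw [add_sub_cancel_left, norm_smul, Real.norm_of_nonneg (sf_pos hR ht _).le]
  exact sf_mul_le_R hR ha ha1 ht htR (norm_nonneg _) h

end ball

end Pool.Agent.Y796.QS
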