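import Pool.Agent.Y796.QS.A

set_option autoImplicit false

/-! Derivatives of the truncated radial stretching. -/

namespace Pool.Agent.Y796.QS

open Real Topology

variable {E : Type*} [NormedAddCommGroup E] [InnerProductSpace ℝ E]
variable {a R t : ℝ} {c : E}

/-- the derivative in the annulus, divided by the factor -/
noncomputable def B0 (a : ℝ) (w : E) : E →L[ℝ] E :=
  ContinuousLinearMap.id ℝ E + ((a - 1) * (‖w‖ ^ 2)⁻¹) • (innerSL ℝ w).smulRight w

theorem B0_apply (w v : E) :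
    B0 a w v = v + ((a - 1) * (‖w‖ ^ 2)⁻¹ * inner ℝ w v) • w := by
  simp [B0, mul_smul]

theorem B0_norm (ha : 0 < a) (ha1 : a < 1) {w : E} (hw : w ≠ 0) : ‖B0 a w‖ ≤ 1 := by
  apply ContinuousLinearMap.opNorm_le_bound _ zero_le_one
  intro v
  rw [one_mul]
  have hn : 0 < ‖w‖ ^ 2 := by positivity
  apply le_of_sq_le_sq _ (norm_nonneg v)
  rw [B0_apply, norm_add_sq_real, inner_smul_right, norm_smul, mul_pow, real_inner_comm v w,
    Real.norm_eq_abs, sq_abs]
  set p := inner ℝ v w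
  have e : ‖v‖ ^ 2 + 2 * ((a - 1) * (‖w‖ ^ 2)⁻¹ * p * p) +
      ((a - 1) * (‖w‖ ^ 2)⁻¹ * p) ^ 2 * ‖w‖ ^ 2 =
      ‖v‖ ^ 2 + (a - 1) * (a + 1) * (p ^ 2 * (‖w‖ ^ 2)⁻¹) := by
    field_simp
    ring
  rw [e]
  have : 0 ≤ p ^ 2 * (‖w‖ ^ 2)⁻¹ := by positivity
  nlinarith [mul_nonneg (mul_nonneg (by linarith : (0 : ℝ) ≤ 1 - a) (by linarith : (0 : ℝ) ≤ a + 1)) this]

theorem B0_det [FiniteDimensional ℝ E] {w : E} (hw : w ≠ 0) : (B0 a w).det = a := by
  have hn : ‖w‖ ^ 2 ≠ 0 := by positivity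
  have e : (B0 a w : E →ₗ[ℝ] E) =
      LinearMap.transvection (((a - 1) * (‖w‖ ^ 2)⁻¹) • (innerSL ℝ w : E →ₗ[ℝ] ℝ)) w := by
    ext v
    simp [B0_apply, LinearMap.transvection]
  unfold ContinuousLinearMap.det
  rw [e, LinearMap.transvection.det]
  simp only [LinearMap.smul_apply, ContinuousLinearMap.coe_coe, innerSL_apply_apply,
    real_inner_self_eq_norm_sq, smul_eq_mul]
  field_simp
  ring

theorem hasFDerivAt_mid (ha1 : a < 1) (ht : 0 < t) {x : E} (h1 : t < ‖x - c‖)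
    (h2 : ‖x - c‖ < R) :
    HasFDerivAt (S a R t c) (sf a R t ‖x - c‖ • B0 a (x - c)) x := by
  have hR : 0 < R := ht.trans (h1.trans h2)
  have hr : 0 < ‖x - c‖ := ht.trans h1
  have hw : x - c ≠ 0 := norm_pos_iff.1 hr
  -- local formula
  have hev : S a R t c =ᶠ[𝓝 x]
      fun y => c + (R ^ (1 - a) * (‖y - c‖ ^ 2) ^ ((a - 1) / 2)) • (y - c) := by
    have hc : Continuous fun y : E => ‖y - c‖ := by fun_prop
    filter_upwards [hc.continuousAt.eventually (lt_mem_nhds h1),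
      hc.continuousAt.eventually (gt_mem_nhds h2)] with y hy1 hy2
    unfold S
    rw [sf_eq_mid hy1.le hy2.le]
    have hy : 0 < ‖y - c‖ := ht.trans hy1
    congr 2
    rw [Real.div_rpow hR.le hy.le, ← Real.rpow_natCast, ← Real.rpow_mul hy.le, div_eq_mul_inv,
      ← Real.rpow_neg hy.le]
    congr 2
    push_cast
    ring
  refine HasFDerivAt.congr_of_eventuallyEq ?_ hev
  have d1 : HasFDerivAt (fun y : E => y - c) (ContinuousLinearMap.id ℝ E) x :=
    (hasFDerivAt_id x).sub_const c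
  have d2 : HasFDerivAt (fun y : E => ‖y - c‖ ^ 2) (2 • (innerSL ℝ (x - c)).comp
      (ContinuousLinearMap.id ℝ E)) x := d1.norm_sq
  have d3 : HasFDerivAt (fun y : E => (‖y - c‖ ^ 2) ^ ((a - 1) / 2))
      (((a - 1) / 2 * (‖x - c‖ ^ 2) ^ ((a - 1) / 2 - 1)) • (2 • (innerSL ℝ (x - c)).comp
      (ContinuousLinearMap.id ℝ E))) x :=
    d2.rpow_const (Or.inl (by positivity))
  have d4 := ((d3.const_mul (R ^ (1 - a))).smul d1).const_add c
  refine HasFDerivAt.congr_fderiv d4 ?_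
  ext1 v
  have hsf : sf a R t ‖x - c‖ = R ^ (1 - a) * (‖x - c‖ ^ 2) ^ ((a - 1) / 2) := by
    rw [sf_eq_mid h1.le h2.le, Real.div_rpow hR.le hr.le, ← Real.rpow_natCast, ← Real.rpow_mul hr.le,
      div_eq_mul_inv, ← Real.rpow_neg hr.le]
    congr 2
    push_cast
    ring
  have hpow : (‖x - c‖ ^ 2) ^ ((a - 1) / 2 - 1) =
      (‖x - c‖ ^ 2) ^ ((a - 1) / 2) * (‖x - c‖ ^ 2)⁻¹ := by
    rw [Real.rpow_sub_one (by positivity)]; ring
  rw [hsf, hpow]
  simp only [B0_apply, smul_smul, smul_apply, add_apply,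
    ContinuousLinearMap.smulRight_apply, ContinuousLinearMap.coe_comp, Function.comp,
    ContinuousLinearMap.coe_id', id, innerSL_apply_apply, smul_eq_mul, nsmul_eq_mul, smul_add]
  congr 2
  push_cast
  ring

theorem hasFDerivAt_in (htR : t ≤ R) {x : E} (h1 : ‖x - c‖ < t) :
    HasFDerivAt (S a R t c) ((R / t) ^ (1 - a) • ContinuousLinearMap.id ℝ E) x := by
  have hev : S a R t c =ᶠ[𝓝 x] fun y => c + ((R / t) ^ (1 - a)) • (y - c) := by
    have hc : Continuous fun y : E => ‖y - c‖ := by fun_prop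
    filter_upwards [hc.continuousAt.eventually (gt_mem_nhds h1)] with y hy1
    unfold S
    rw [sf_eq_of_le htR hy1.le]
  refine HasFDerivAt.congr_of_eventuallyEq ?_ hev
  exact (((hasFDerivAt_id x).sub_const c).const_smul _).const_add c

end Pool.Agent.Y796.QS
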