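import Pool.Agent.Y796.QS.B

set_option autoImplicit false

/-! The map obtained from a family of disjoint balls. -/

namespace Pool.Agent.Y796.QS

open Real Topology

variable {E : Type*} [NormedAddCommGroup E] [InnerProductSpace ℝ E]

/-- A family of disjoint balls in a bounded set, accumulating only at `0`. -/
structure Fam (a : ℝ) (ω : ℝ → ℝ) (B : ℝ) {ι : Type*} (c : ι → E) (R t : ι → ℝ) : Prop where
  a0 : 0 < a
  a1 : a < 1
  R0 : ∀ i, 0 < R i
  R1 : ∀ i, R i ≤ 1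
  t0 : ∀ i, 0 < t i
  tR : ∀ i, t i ≤ R i
  disj : ∀ i j, i ≠ j → R i + R j < ‖c i - c j‖
  hhalf : ∀ i, ∀ s, 0 < s → s ≤ 2 * R i → 2 * (R i / t i) ^ (1 - a) * s ≤ s ^ (1 / 2 : ℝ)
  hω : ∀ i, ∀ s, 0 < s → s ≤ 2 * R i → 2 * (R i / t i) ^ (1 - a) * s ≤ ω s
  bdd : ∀ i, ‖c i‖ ≤ B
  loc : ∀ x : E, x ≠ 0 → ∃ ε > 0, {i | ‖x - c i‖ ≤ R i + ε}.Finite

/-- The map. -/
noncomputable def f (a : ℝ) {ι : Type*} (c : ι → E) (R t : ι → ℝ) (x : E) : E :=
  x + ∑' i, g a (R i) (t i) (c i) x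

variable {a B : ℝ} {ω : ℝ → ℝ} {ι : Type*} {c : ι → E} {R t : ι → ℝ}

namespace Fam

variable (H : Fam a ω B c R t)
include H

theorem uniq {x : E} {i j : ι} (hi : ‖x - c i‖ ≤ R i) (hj : ‖x - c j‖ ≤ R j) : i = j := by
  by_contra hne
  have h1 := H.disj i j hne
  have h2 : ‖c i - c j‖ ≤ ‖x - c i‖ + ‖x - c j‖ := by
    calc ‖c i - c j‖ = ‖(x - c j) - (x - c i)‖ := by congr 1; abel
      _ ≤ ‖x - c j‖ + ‖x - c i‖ := norm_sub_le _ _
      _ = _ := add_comm _ _
  linarith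

theorem g_other {x : E} {i j : ι} (hi : ‖x - c i‖ ≤ R i) (hj : j ≠ i) :
    g a (R j) (t j) (c j) x = 0 := by
  apply g_zero (H.t0 j) (H.tR j)
  by_contra h
  exact hj (H.uniq (le_of_not_ge h) hi)

theorem f_mem {x : E} {i : ι} (hi : ‖x - c i‖ ≤ R i) :
    f a c R t x = S a (R i) (t i) (c i) x := by
  unfold f
  rw [tsum_eq_single i (fun j hj => H.g_other hi hj), S_eq]

theorem f_out {x : E} (h : ∀ i, R i < ‖x - c i‖) : f a c R t x = x := by
  unfold f
  have : ∀ i, g a (R i) (t i) (c i) x = 0 := fun i => g_zero (H.t0 i) (H.tR i) (h i).le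
  simp [this]

/-- displacement -/
theorem disp_mem {x : E} {i : ι} (hi : ‖x - c i‖ ≤ R i) :
    ‖f a c R t x - x‖ ≤ R i - ‖x - c i‖ := by
  rw [H.f_mem hi, S_eq, add_sub_cancel_left]
  exact norm_g_le (H.R0 i) H.a0 H.a1 (H.t0 i) (H.tR i) hi

theorem disp_le_one (x : E) : ‖f a c R t x - x‖ ≤ 1 := by
  by_cases h : ∃ i, ‖x - c i‖ ≤ R i
  · obtain ⟨i, hi⟩ := h
    have := H.disp_mem hi
    have := H.R1 i
    have := norm_nonneg (x - c i)
    linarith
  · push Not at h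
    rw [H.f_out h]; simp

theorem disp_diff {x y : E} (h : ¬ ∃ i, ‖x - c i‖ ≤ R i ∧ ‖y - c i‖ ≤ R i) :
    ‖f a c R t x - x‖ ≤ ‖x - y‖ := by
  by_cases hx : ∃ i, ‖x - c i‖ ≤ R i
  · obtain ⟨i, hi⟩ := hx
    have hy : R i < ‖y - c i‖ := by
      by_contra hy
      exact h ⟨i, hi, le_of_not_gt hy⟩
    have h1 := H.disp_mem hi
    have h2 : ‖y - c i‖ ≤ ‖x - y‖ + ‖x - c i‖ := by
      calc ‖y - c i‖ = ‖(x - c i) - (x - y)‖ := by congr 1; abel
        _ ≤ ‖x - c i‖ + ‖x - y‖ := norm_sub_le _ _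
        _ = _ := add_comm _ _
    linarith
  · push Not at hx
    rw [H.f_out hx]; simp

theorem same_ball {x y : E} {i : ι} (hx : ‖x - c i‖ ≤ R i) (hy : ‖y - c i‖ ≤ R i) :
    ‖f a c R t x - f a c R t y‖ ≤ 2 * (R i / t i) ^ (1 - a) * ‖x - y‖ ∧ ‖x - y‖ ≤ 2 * R i := by
  refine ⟨?_, ?_⟩
  · rw [H.f_mem hx, H.f_mem hy]
    exact S_lip' (H.R0 i) H.a0 H.a1 (H.t0 i) x y
  · calc ‖x - y‖ = ‖(x - c i) - (y - c i)‖ := by congr 1; abel
      _ ≤ ‖x - c i‖ + ‖y - c i‖ := norm_sub_le _ _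
      _ ≤ 2 * R i := by linarith

theorem diff_ball {x y : E} (h : ¬ ∃ i, ‖x - c i‖ ≤ R i ∧ ‖y - c i‖ ≤ R i) :
    ‖f a c R t x - f a c R t y‖ ≤ 3 * ‖x - y‖ := by
  have h1 := H.disp_diff h
  have h2 : ‖f a c R t y - y‖ ≤ ‖x - y‖ := by
    rw [norm_sub_rev x y]
    apply H.disp_diff
    rintro ⟨i, h3, h4⟩
    exact h ⟨i, h4, h3⟩
  have e : f a c R t x - f a c R t y =
      (f a c R t x - x) + (x - y) - (f a c R t y - y) := by abel
  rw [e]
  refine (norm_sub_le _ _).trans ?_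
  have := norm_add_le (f a c R t x - x) (x - y)
  linarith

/-- modulus of continuity -/
theorem modulus (x y : E) (hxy : x ≠ y) :
    ‖f a c R t x - f a c R t y‖ ≤ max (3 * ‖x - y‖) (ω ‖x - y‖) := by
  have hs : 0 < ‖x - y‖ := norm_pos_iff.2 (sub_ne_zero.2 hxy)
  by_cases h : ∃ i, ‖x - c i‖ ≤ R i ∧ ‖y - c i‖ ≤ R i
  · obtain ⟨i, hx, hy⟩ := h
    obtain ⟨h1, h2⟩ := H.same_ball hx hy
    exact (h1.trans (H.hω i _ hs h2)).trans (le_max_right _ _)
  · exact (H.diff_ball h).trans (le_max_left _ _)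

theorem modulus_half (x y : E) (hxy : x ≠ y) :
    ‖f a c R t x - f a c R t y‖ ≤ 3 * ‖x - y‖ + ‖x - y‖ ^ (1 / 2 : ℝ) := by
  have hs : 0 < ‖x - y‖ := norm_pos_iff.2 (sub_ne_zero.2 hxy)
  have hsα : 0 < ‖x - y‖ ^ (1 / 2 : ℝ) := Real.rpow_pos_of_pos hs _
  by_cases h : ∃ i, ‖x - c i‖ ≤ R i ∧ ‖y - c i‖ ≤ R i
  · obtain ⟨i, hx, hy⟩ := h
    obtain ⟨h1, h2⟩ := H.same_ball hx hy
    have := H.hhalf i _ hs h2
    linarith
  · have := H.diff_ball h
    linarith

theorem continuous : Continuous (f a c R t) := by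
  have hα : (0 : ℝ) < 1 / 2 := by norm_num
  rw [continuous_iff_continuousAt]
  intro y
  rw [ContinuousAt, tendsto_iff_norm_sub_tendsto_zero]
  have hlim : Filter.Tendsto (fun x : E => 3 * ‖x - y‖ + ‖x - y‖ ^ (1 / 2 : ℝ)) (𝓝 y) (𝓝 0) := by
    have hc : Continuous fun x : E => 3 * ‖x - y‖ + ‖x - y‖ ^ (1 / 2 : ℝ) := by
      apply Continuous.add (by fun_prop)
      exact Continuous.rpow_const (by fun_prop) (fun x => Or.inr hα.le)
    have := hc.tendsto y
    simpa [Real.zero_rpow hα.ne'] using this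
  refine squeeze_zero (fun x => norm_nonneg _) (fun x => ?_) hlim
  rcases eq_or_ne x y with rfl | h
  · simp [Real.zero_rpow hα.ne']
  · exact H.modulus_half x y h

theorem maps_mem {x : E} {i : ι} (hi : ‖x - c i‖ ≤ R i) : ‖f a c R t x - c i‖ ≤ R i := by
  rw [H.f_mem hi]
  exact S_mem (H.R0 i) H.a0 H.a1 (H.t0 i) (H.tR i) hi

theorem injective : Function.Injective (f a c R t) := by
  intro x y h
  by_cases hx : ∃ i, ‖x - c i‖ ≤ R i
  · obtain ⟨i, hx⟩ := hx
    by_cases hy : ∃ j, ‖y - c j‖ ≤ R j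
    · obtain ⟨j, hy⟩ := hy
      have h1 := H.maps_mem hx
      rw [h] at h1
      have h2 := H.uniq h1 (H.maps_mem hy)
      subst h2
      rw [H.f_mem hx, H.f_mem hy] at h
      exact S_inj (H.R0 i) H.a0 H.a1 (H.t0 i) h
    · push Not at hy
      have h1 := H.maps_mem hx
      rw [h, H.f_out hy] at h1
      exact absurd h1 (not_le.2 (hy i))
  · push Not at hx
    by_cases hy : ∃ j, ‖y - c j‖ ≤ R j
    · obtain ⟨j, hy⟩ := hy
      have h1 := H.maps_mem hy
      rw [← h, H.f_out hx] at h1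
      exact absurd h1 (not_le.2 (hx j))
    · push Not at hy
      rwa [H.f_out hx, H.f_out hy] at h

theorem surjective : Function.Surjective (f a c R t) := by
  intro y
  by_cases hy : ∃ i, ‖y - c i‖ ≤ R i
  · obtain ⟨i, hy⟩ := hy
    -- intermediate value theorem along the ray
    have hcont : ContinuousOn (fun r : ℝ => sf a (R i) (t i) r * r) (Set.Icc 0 (R i)) := by
      apply ContinuousOn.mul _ continuousOn_id
      apply Continuous.continuousOn
      unfold sf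
      apply Continuous.rpow_const
      · apply Continuous.div continuous_const
        · unfold rho; fun_prop
        · intro r; exact (rho_pos (H.t0 i) r).ne'
      · intro r
        left
        exact (div_pos (H.R0 i) (rho_pos (H.t0 i) r)).ne'
    have h2 := intermediate_value_Icc (H.R0 i).le hcont
    have h3 : ‖y - c i‖ ∈ Set.Icc (sf a (R i) (t i) 0 * 0) (sf a (R i) (t i) (R i) * R i) := by
      rw [mul_zero, sf_eq_one (H.t0 i) (H.tR i) le_rfl, one_mul]
      exact ⟨norm_nonneg _, hy⟩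
    obtain ⟨r, ⟨hr0, hrR⟩, hr⟩ := h2 h3
    simp only at hr
    rcases eq_or_ne y (c i) with rfl | hne
    · refine ⟨c i, ?_⟩
      rw [H.f_mem (i := i) (by simpa using (H.R0 i).le)]
      unfold S; simp
    · have hpos : 0 < ‖y - c i‖ := norm_pos_iff.2 (sub_ne_zero.2 hne)
      have hn : ‖(r / ‖y - c i‖) • (y - c i)‖ = r := by
        rw [norm_smul, Real.norm_of_nonneg (by positivity)]
        field_simp
      refine ⟨c i + (r / ‖y - c i‖) • (y - c i), ?_⟩
      have hx : ‖c i + (r / ‖y - c i‖) • (y - c i) - c i‖ = r := by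
        rw [add_sub_cancel_left, hn]
      rw [H.f_mem (i := i) (by rw [hx]; exact hrR)]
      unfold S
      rw [hx, add_sub_cancel_left, smul_smul]
      have : sf a (R i) (t i) r * (r / ‖y - c i‖) = 1 := by
        rw [← mul_div_assoc, hr, div_self hpos.ne']
      rw [this, one_smul]
      abel
  · push Not at hy
    exact ⟨y, H.f_out hy⟩

theorem isClosedEmbedding [ProperSpace E] : IsClosedEmbedding (f a c R t) := by
  have hp : IsProperMap (f a c R t) := by
    rw [isProperMap_iff_tendsto_cocompact]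
    refine ⟨H.continuous, ?_⟩
    rw [← Metric.cobounded_eq_cocompact, ← tendsto_norm_atTop_iff_cobounded]
    have h1 : Filter.Tendsto (fun x : E => ‖x‖ - 1) (Bornology.cobounded E) Filter.atTop :=
      Filter.tendsto_atTop_add_const_right _ _ tendsto_norm_cobounded_atTop
    refine Filter.tendsto_atTop_mono (fun x => ?_) h1
    have h2 := H.disp_le_one x
    have h3 : ‖x‖ ≤ ‖f a c R t x‖ + ‖f a c R t x - x‖ := by
      calc ‖x‖ = ‖f a c R t x - (f a c R t x - x)‖ := by congr 1; abel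
        _ ≤ _ := norm_sub_le _ _
    linarith
  exact IsClosedEmbedding.of_continuous_injective_isClosedMap H.continuous H.injective
    hp.isClosedMap

/-- away from the balls the map is the identity. -/
theorem eventually_out {x : E} (hx : x ≠ 0) (h : ∀ i, R i < ‖x - c i‖) :
    ∀ᶠ y in 𝓝 x, ∀ i, R i < ‖y - c i‖ := by
  obtain ⟨ε, hε, hfin⟩ := H.loc x hx
  have h1 : ∀ᶠ y in 𝓝 x, ∀ i ∈ {i | ‖x - c i‖ ≤ R i + ε}, R i < ‖y - c i‖ := by
    rw [Filter.eventually_all_finite hfin]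
    intro i _
    have hc : Continuous fun y : E => ‖y - c i‖ := by fun_prop
    exact hc.continuousAt.eventually (lt_mem_nhds (h i))
  have h2 : ∀ᶠ y in 𝓝 x, ‖y - x‖ < ε := by
    have hc : Continuous fun y : E => ‖y - x‖ := by fun_prop
    exact hc.continuousAt.eventually (gt_mem_nhds (by simpa using hε))
  filter_upwards [h1, h2] with y hy1 hy2 i
  by_cases hi : ‖x - c i‖ ≤ R i + ε
  · exact hy1 i hi
  · have : ‖x - c i‖ ≤ ‖y - c i‖ + ‖y - x‖ := by
      calc ‖x - c i‖ = ‖(y - c i) - (y - x)‖ := by congr 1; abel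
        _ ≤ _ := norm_sub_le _ _
    linarith [lt_of_not_ge hi]

/-- near an inner point of a ball. -/
theorem eventually_in {x : E} {i : ι} (h : ‖x - c i‖ < R i) :
    ∀ᶠ y in 𝓝 x, ‖y - c i‖ ≤ R i := by
  have hc : Continuous fun y : E => ‖y - c i‖ := by fun_prop
  exact (hc.continuousAt.eventually (gt_mem_nhds h)).mono fun y hy => hy.le

end Fam

end Pool.Agent.Y796.QS
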