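import Pool.Agent.Y796.QS.C

set_option autoImplicit false

/-! Derivatives almost everywhere. -/

namespace Pool.Agent.Y796.QS

open Real Topology MeasureTheory

variable {E : Type*} [NormedAddCommGroup E] [InnerProductSpace ℝ E]

/-- the point `x` is an inner point of the ball `i`, with derivative `A`. -/
def Pt (a : ℝ) (R t : ℝ) (c : E) (x : E) (A : E →L[ℝ] E) : Prop :=
  ‖x - c‖ < R ∧ HasFDerivAt (S a R t c) A x ∧ ‖A‖ ≤ sf a R t ‖x - c‖ ∧
    ‖A‖ ^ Module.finrank ℝ E ≤ (1 / a) * A.det ∧ (‖x - c‖ < t → ‖A‖ = (R / t) ^ (1 - a))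

theorem pt_in [Nontrivial E] {a R t : ℝ} {c x : E} (ha : 0 < a) (ha1 : a < 1)
    (ht : 0 < t) (htR : t ≤ R) (h : ‖x - c‖ < t) :
    Pt a R t c x ((R / t) ^ (1 - a) • ContinuousLinearMap.id ℝ E) := by
  have hR : 0 < R := ht.trans_le htR
  have hm : 0 < (R / t) ^ (1 - a) := Real.rpow_pos_of_pos (div_pos hR ht) _
  have hn : ‖(R / t) ^ (1 - a) • ContinuousLinearMap.id ℝ E‖ = (R / t) ^ (1 - a) := by
    rw [norm_smul, ContinuousLinearMap.norm_id, mul_one, Real.norm_of_nonneg hm.le]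
  refine ⟨h.trans_le htR, hasFDerivAt_in htR h, ?_, ?_, fun _ => hn⟩
  · rw [hn, sf_eq_of_le htR h.le]
  · rw [hn]
    have : ((R / t) ^ (1 - a) • ContinuousLinearMap.id ℝ E).det =
        ((R / t) ^ (1 - a)) ^ Module.finrank ℝ E := by
      unfold ContinuousLinearMap.det
      rw [ContinuousLinearMap.coe_smul, LinearMap.det_smul]
      simp
    rw [this]
    have h1 : 1 ≤ 1 / a := by rw [one_le_div ha]; exact ha1.le
    have h2 : 0 < ((R / t) ^ (1 - a)) ^ Module.finrank ℝ E := by positivity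
    nlinarith

theorem pt_mid [FiniteDimensional ℝ E] {a R t : ℝ} {c x : E} (ha : 0 < a) (ha1 : a < 1)
    (ht : 0 < t) (h1 : t < ‖x - c‖) (h2 : ‖x - c‖ < R) :
    Pt a R t c x (sf a R t ‖x - c‖ • B0 a (x - c)) := by
  have hR : 0 < R := ht.trans (h1.trans h2)
  have hw : x - c ≠ 0 := norm_pos_iff.1 (ht.trans h1)
  have hm := sf_pos (a := a) hR ht ‖x - c‖
  have hn : ‖sf a R t ‖x - c‖ • B0 a (x - c)‖ ≤ sf a R t ‖x - c‖ := by
    rw [norm_smul, Real.norm_of_nonneg hm.le]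
    have := B0_norm ha ha1 hw
    nlinarith
  refine ⟨h2, hasFDerivAt_mid ha1 ht h1 h2, hn, ?_, fun h => absurd h (not_lt.2 h1.le)⟩
  have : (sf a R t ‖x - c‖ • B0 a (x - c)).det = (sf a R t ‖x - c‖) ^ Module.finrank ℝ E * a := by
    unfold ContinuousLinearMap.det
    rw [ContinuousLinearMap.coe_smul, LinearMap.det_smul]
    congr 1
    exact B0_det hw
  rw [this]
  calc _ ≤ (sf a R t ‖x - c‖) ^ Module.finrank ℝ E := by
        apply pow_le_pow_left₀ (norm_nonneg _) hn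
    _ = _ := by field_simp

variable {a B : ℝ} {ω : ℝ → ℝ} {ι : Type*} {c : ι → E} {R t : ι → ℝ}

namespace Fam

variable (H : Fam a ω B c R t)
include H

theorem ae_cases [FiniteDimensional ℝ E] [Nontrivial E] [MeasurableSpace E] [BorelSpace E]
    (μ : Measure E) [μ.IsAddHaarMeasure] [Countable ι] :
    ∀ᵐ x ∂μ, (∃ i A, Pt a (R i) (t i) (c i) x A) ∨ (x ≠ 0 ∧ ∀ i, R i < ‖x - c i‖) := by
  have h1 : ∀ᵐ x ∂μ, ∀ i, ‖x - c i‖ ≠ R i := by
    rw [ae_all_iff]
    intro i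
    have := Measure.addHaar_sphere_of_ne_zero μ (c i) (H.R0 i).ne'
    rw [ae_iff]
    convert this using 2
    ext x; simp [dist_eq_norm]
  have h2 : ∀ᵐ x ∂μ, ∀ i, ‖x - c i‖ ≠ t i := by
    rw [ae_all_iff]
    intro i
    have := Measure.addHaar_sphere_of_ne_zero μ (c i) (H.t0 i).ne'
    rw [ae_iff]
    convert this using 2
    ext x; simp [dist_eq_norm]
  have h3 : ∀ᵐ x ∂μ, x ≠ 0 := by
    rw [ae_iff]
    simp
  filter_upwards [h1, h2, h3] with x hx1 hx2 hx3
  by_cases hx : ∃ i, ‖x - c i‖ ≤ R i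
  · obtain ⟨i, hi⟩ := hx
    left
    have hi' : ‖x - c i‖ < R i := lt_of_le_of_ne hi (hx1 i)
    rcases lt_or_gt_of_ne (hx2 i) with h | h
    · exact ⟨i, _, pt_in H.a0 H.a1 (H.t0 i) (H.tR i) h⟩
    · exact ⟨i, _, pt_mid H.a0 H.a1 (H.t0 i) h hi'⟩
  · push Not at hx
    exact Or.inr ⟨hx3, hx⟩

theorem fderiv_g_zero {x : E} {j : ι} (h : ∀ᶠ y in 𝓝 x, g a (R j) (t j) (c j) y = 0) :
    HasFDerivAt (g a (R j) (t j) (c j)) (0 : E →L[ℝ] E) x :=
  (hasFDerivAt_const (0 : E) x).congr_of_eventuallyEq h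

theorem in_f {x : E} {i : ι} {A : E →L[ℝ] E} (h : Pt a (R i) (t i) (c i) x A) :
    HasFDerivAt (f a c R t) A x := by
  refine h.2.1.congr_of_eventuallyEq ?_
  filter_upwards [H.eventually_in h.1] with y hy
  exact H.f_mem hy

theorem in_g {x : E} {i : ι} {A : E →L[ℝ] E} (h : Pt a (R i) (t i) (c i) x A) :
    HasFDerivAt (g a (R i) (t i) (c i)) (A - ContinuousLinearMap.id ℝ E) x := by
  have h1 := h.2.1.sub (hasFDerivAt_id x)
  refine h1.congr_of_eventuallyEq ?_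
  filter_upwards with y
  simp [S_eq]

theorem in_g_other {x : E} {i j : ι} {A : E →L[ℝ] E} (h : Pt a (R i) (t i) (c i) x A)
    (hj : j ≠ i) : HasFDerivAt (g a (R j) (t j) (c j)) (0 : E →L[ℝ] E) x := by
  apply H.fderiv_g_zero
  filter_upwards [H.eventually_in h.1] with y hy
  exact H.g_other hy hj

theorem out_f {x : E} (hx : x ≠ 0) (h : ∀ i, R i < ‖x - c i‖) :
    HasFDerivAt (f a c R t) (ContinuousLinearMap.id ℝ E) x := by
  refine (hasFDerivAt_id x).congr_of_eventuallyEq ?_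
  filter_upwards [H.eventually_out hx h] with y hy
  exact H.f_out hy

theorem out_g {x : E} (hx : x ≠ 0) (h : ∀ i, R i < ‖x - c i‖) (j : ι) :
    HasFDerivAt (g a (R j) (t j) (c j)) (0 : E →L[ℝ] E) x := by
  apply H.fderiv_g_zero
  filter_upwards [H.eventually_out hx h] with y hy
  exact g_zero (H.t0 j) (H.tR j) (hy j).le

/-- the derivative of `f` is the sum of the derivatives of the pieces. -/
theorem fderiv_sum {x : E}
    (hx : (∃ i A, Pt a (R i) (t i) (c i) x A) ∨ (x ≠ 0 ∧ ∀ i, R i < ‖x - c i‖)) :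
    fderiv ℝ (f a c R t) x = ContinuousLinearMap.id ℝ E +
      ∑' i, fderiv ℝ (g a (R i) (t i) (c i)) x := by
  rcases hx with ⟨i, A, h⟩ | ⟨h0, h⟩
  · rw [(H.in_f h).fderiv, tsum_eq_single i (fun j hj => (H.in_g_other h hj).fderiv),
      (H.in_g h).fderiv]
    abel
  · rw [(H.out_f h0 h).fderiv]
    have : ∀ i, fderiv ℝ (g a (R i) (t i) (c i)) x = 0 := fun i => (H.out_g h0 h i).fderiv
    simp [this]

/-- pointwise bounds for the derivatives of the pieces. -/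
theorem fderiv_g_bound {x : E}
    (hx : (∃ i A, Pt a (R i) (t i) (c i) x A) ∨ (x ≠ 0 ∧ ∀ i, R i < ‖x - c i‖)) (i : ι) :
    ‖fderiv ℝ (g a (R i) (t i) (c i)) x‖ ≤
      (Metric.closedBall (c i) (R i)).indicator (fun x => 2 * sf a (R i) (t i) ‖x - c i‖) x := by
  have hnn : ∀ y, 0 ≤ (Metric.closedBall (c i) (R i)).indicator
      (fun x => 2 * sf a (R i) (t i) ‖x - c i‖) y := by
    intro y
    apply Set.indicator_nonneg
    intro z _
    have := sf_pos (a := a) (H.R0 i) (H.t0 i) ‖z - c i‖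
    positivity
  rcases hx with ⟨j, A, h⟩ | ⟨h0, h⟩
  · by_cases hij : i = j
    · subst hij
      rw [(H.in_g h).fderiv, Set.indicator_of_mem (by simpa [dist_eq_norm] using h.1.le)]
      refine (norm_sub_le _ _).trans ?_
      have h1 := h.2.2.1
      have h2 := ContinuousLinearMap.norm_id_le (𝕜 := ℝ) (E := E)
      have h3 := one_le_sf (a := a) H.a1 (H.t0 i) (H.tR i) ‖x - c i‖
      linarith
    · rw [(H.in_g_other h hij).fderiv, norm_zero]; exact hnn x
  · rw [(H.out_g h0 h i).fderiv, norm_zero]; exact hnn x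

end Fam

end Pool.Agent.Y796.QS
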