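import Mathlib

set_option autoImplicit false

/-! Integration by parts for Lipschitz maps. -/

namespace Pool.Agent.Y796.QS

open MeasureTheory Topology
open scoped ContDiff NNReal

variable {E F : Type*} [NormedAddCommGroup E] [NormedSpace ℝ E] [FiniteDimensional ℝ E]
  [MeasurableSpace E] [BorelSpace E] [NormedAddCommGroup F] [NormedSpace ℝ F]
  [FiniteDimensional ℝ F]
  {μ : Measure E} [μ.IsAddHaarMeasure]

theorem ibp_int1 {h : E → F} (hh : Continuous h) {φ : E → ℝ} (hφ : ContDiff ℝ ∞ φ)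
    (hc : HasCompactSupport φ) (v : E) : Integrable (fun x => (fderiv ℝ φ x v) • h x) μ := by
  have hd : Continuous fun x => fderiv ℝ φ x v :=
    (hφ.continuous_fderiv (by simp)).clm_apply continuous_const
  have hs : HasCompactSupport fun x => fderiv ℝ φ x v := by
    have := hc.fderiv (𝕜 := ℝ)
    exact this.comp_left (g := fun L : E →L[ℝ] ℝ => L v) (by simp)
  exact (hd.smul hh).integrable_of_hasCompactSupport hs.smul_right

theorem ibp_int2 {h : E → F} {C : ℝ≥0} (hh : LipschitzWith C h) {φ : E → ℝ}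
    (hφ : ContDiff ℝ ∞ φ) (hc : HasCompactSupport φ) (v : E) :
    Integrable (fun x => φ x • (fderiv ℝ h x v)) μ := by
  borelize F
  have hφi : Integrable φ μ := hφ.continuous.integrable_of_hasCompactSupport hc
  have hm : AEStronglyMeasurable (fun x => fderiv ℝ h x v) μ :=
    (measurable_fderiv_apply_const ℝ h v).aestronglyMeasurable
  refine Integrable.mono' (hφi.norm.mul_const (C * ‖v‖))
    (hφi.aestronglyMeasurable.smul hm) ?_
  filter_upwards with x
  rw [norm_smul]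
  gcongr
  exact (ContinuousLinearMap.le_opNorm _ _).trans
    (mul_le_mul_of_nonneg_right (norm_fderiv_le_of_lipschitz ℝ hh) (norm_nonneg v))

theorem ibp {h : E → F} {C : ℝ≥0} (hh : LipschitzWith C h) {φ : E → ℝ}
    (hφ : ContDiff ℝ ∞ φ) (hc : HasCompactSupport φ) (v : E) :
    ∫ x, (fderiv ℝ φ x v) • h x ∂μ = - ∫ x, φ x • (fderiv ℝ h x v) ∂μ := by
  have i1 := ibp_int1 (μ := μ) hh.continuous hφ hc v
  have i2 := ibp_int2 (μ := μ) hh hφ hc v
  rw [SeparatingDual.eq_iff_forall_dual_eq (R := ℝ)]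
  intro ℓ
  rw [map_neg, ← ContinuousLinearMap.integral_comp_comm ℓ i1,
    ← ContinuousLinearMap.integral_comp_comm ℓ i2]
  simp only [map_smul, smul_eq_mul]
  have hl : LipschitzWith (‖ℓ‖₊ * C) (fun x => ℓ (h x)) := ℓ.lipschitz.comp hh
  obtain ⟨D, hD⟩ := ContDiff.lipschitzWith_of_hasCompactSupport hc hφ (by simp)
  have key := hl.integral_lineDeriv_mul_eq (μ := μ) hD hc v
  have e1 : ∫ x, ℓ (fderiv ℝ h x v) * φ x ∂μ = ∫ x, lineDeriv ℝ (fun x => ℓ (h x)) x v * φ x ∂μ := by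
    apply integral_congr_ae
    filter_upwards [hh.ae_differentiableAt (μ := μ)] with x hx
    congr 1
    have : HasFDerivAt (fun x => ℓ (h x)) (ℓ.comp (fderiv ℝ h x)) x :=
      ℓ.hasFDerivAt.comp x hx.hasFDerivAt
    rw [(this.hasLineDerivAt v).lineDeriv]
    rfl
  have e2 : ∫ x, lineDeriv ℝ φ x (-v) * ℓ (h x) ∂μ = - ∫ x, fderiv ℝ φ x v * ℓ (h x) ∂μ := by
    rw [← integral_neg]
    congr 1
    ext x
    have : DifferentiableAt ℝ φ x := (hφ.differentiable (by simp)) x
    rw [this.lineDeriv_eq_fderiv, map_neg]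
    ring
  have e3 : ∫ x, φ x * ℓ (fderiv ℝ h x v) ∂μ = ∫ x, ℓ (fderiv ℝ h x v) * φ x ∂μ := by
    congr 1; ext x; ring
  rw [e3, e1, key, e2, neg_neg]

/-- uniqueness of weak derivatives -/
theorem weak_unique {A A' : E → (E →L[ℝ] F)} (hA : LocallyIntegrable A μ)
    (hA' : LocallyIntegrable A' μ)
    (h : ∀ φ : E → ℝ, ContDiff ℝ ∞ φ → HasCompactSupport φ → ∀ v : E,
      ∫ x, φ x • A x v ∂μ = ∫ x, φ x • A' x v ∂μ) : ∀ᵐ x ∂μ, A x = A' x := by
  let b := Module.finBasis ℝ E
  have h1 : ∀ᵐ x ∂μ, ∀ i, A x (b i) = A' x (b i) := by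
    rw [ae_all_iff]
    intro i
    have l1 : LocallyIntegrable (fun x => A x (b i)) μ := by
      intro x
      obtain ⟨s, hs, hi⟩ := hA x
      exact ⟨s, hs, (ContinuousLinearMap.apply ℝ F (b i)).integrable_comp hi⟩
    have l2 : LocallyIntegrable (fun x => A' x (b i)) μ := by
      intro x
      obtain ⟨s, hs, hi⟩ := hA' x
      exact ⟨s, hs, (ContinuousLinearMap.apply ℝ F (b i)).integrable_comp hi⟩
    exact ae_eq_of_integral_contDiff_smul_eq l1 l2 fun φ hφ hc => h φ hφ hc (b i)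
  filter_upwards [h1] with x hx
  apply ContinuousLinearMap.coe_injective
  exact b.ext hx

end Pool.Agent.Y796.QS
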