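import Pool.Agent.Y796.QS.A

set_option autoImplicit false

/-! The integral of the stretching factor. -/

namespace Pool.Agent.Y796.QS

open MeasureTheory Topology Metric
open scoped ENNReal

variable {E : Type*} [NormedAddCommGroup E] [InnerProductSpace ℝ E] [FiniteDimensional ℝ E]
  [MeasurableSpace E] [BorelSpace E] [Nontrivial E]
  (μ : Measure E) [μ.IsAddHaarMeasure]

/-- the constant -/
noncomputable def Cst (a : ℝ) : ℝ≥0∞ :=
  ∫⁻ y in closedBall (0 : E) 1, ENNReal.ofReal (‖y‖ ^ (-((1 - a) * Module.finrank ℝ E))) ∂μ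

theorem Cst_lt_top {a : ℝ} (ha : 0 < a) : Cst μ a < ∞ := by
  have hd : 1 ≤ Module.finrank ℝ E := Module.finrank_pos
  have hd' : (0 : ℝ) < Module.finrank ℝ E := by exact_mod_cast hd
  have h1 : IntegrableOn (fun y : E => ‖y‖ ^ (-((1 - a) * Module.finrank ℝ E))) (ball 0 2) μ := by
    apply integrableOn_ball_of_norm_le_rpow (C := 1) hd
      (α := (1 - a) * Module.finrank ℝ E) (by nlinarith)
    · filter_upwards with x
      rw [one_mul, Real.norm_of_nonneg (Real.rpow_nonneg (norm_nonneg x) _)]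
    · exact (measurable_norm.pow_const _).aestronglyMeasurable
  have h2 : IntegrableOn (fun y : E => ‖y‖ ^ (-((1 - a) * Module.finrank ℝ E)))
      (closedBall 0 1) μ := h1.mono_set (closedBall_subset_ball (by norm_num))
  exact Integrable.lintegral_lt_top h2

theorem lint_scale (G : E → ℝ≥0∞) (hG : Measurable G) (c : E) {R : ℝ} (hR : 0 < R) :
    ∫⁻ x, G (R⁻¹ • (x - c)) ∂μ = ENNReal.ofReal (R ^ Module.finrank ℝ E) * ∫⁻ x, G x ∂μ := by
  have h1 : ∫⁻ x, G (R⁻¹ • (x - c)) ∂μ = ∫⁻ x, G (R⁻¹ • x) ∂μ :=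
    lintegral_sub_right_eq_self (μ := μ) (fun x => G (R⁻¹ • x)) c
  have h2 : ∫⁻ x, G (R⁻¹ • x) ∂μ = ∫⁻ x, G x ∂(Measure.map (R⁻¹ • ·) μ) := by
    rw [lintegral_map hG (measurable_const_smul _)]
  rw [h1, h2, Measure.map_addHaar_smul μ (inv_ne_zero hR.ne'), lintegral_smul_measure, smul_eq_mul]
  congr 2
  rw [inv_pow, inv_inv, abs_of_pos (by positivity)]

theorem lint_sf {a R t : ℝ} (ha1 : a < 1) (ht : 0 < t) (htR : t ≤ R) (c : E) :
    ∫⁻ x in closedBall c R, ENNReal.ofReal (sf a R t ‖x - c‖ ^ Module.finrank ℝ E) ∂μ ≤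
      ENNReal.ofReal (R ^ Module.finrank ℝ E) * Cst μ a := by
  have hR : 0 < R := ht.trans_le htR
  set G : E → ℝ≥0∞ := (closedBall (0 : E) 1).indicator
    (fun y => ENNReal.ofReal (‖y‖ ^ (-((1 - a) * Module.finrank ℝ E)))) with hG
  have hGm : Measurable G :=
    (ENNReal.measurable_ofReal.comp (measurable_norm.pow_const _)).indicator
      isClosed_closedBall.measurableSet
  have e : Cst μ a = ∫⁻ x, G x ∂μ := by
    unfold Cst
    rw [hG, lintegral_indicator isClosed_closedBall.measurableSet]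
  rw [e, ← lint_scale μ G hGm c hR, ← lintegral_indicator isClosed_closedBall.measurableSet]
  apply lintegral_mono_ae
  have h0 : ∀ᵐ x ∂μ, x ≠ c := by
    rw [ae_iff]; simp
  filter_upwards [h0] with x hx
  by_cases hxm : x ∈ closedBall c R
  · have hr : ‖x - c‖ ≤ R := by simpa [dist_eq_norm] using hxm
    have hr0 : 0 < ‖x - c‖ := norm_pos_iff.2 (sub_ne_zero.2 hx)
    have hn : ‖R⁻¹ • (x - c)‖ = ‖x - c‖ / R := by
      rw [norm_smul, norm_inv, Real.norm_of_nonneg hR.le]; field_simp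
    have hm : R⁻¹ • (x - c) ∈ closedBall (0 : E) 1 := by
      rw [mem_closedBall_zero_iff, hn, div_le_one hR]; exact hr
    rw [Set.indicator_of_mem hxm, hG, Set.indicator_of_mem hm, hn]
    apply ENNReal.ofReal_le_ofReal
    have h1 : sf a R t ‖x - c‖ ≤ (R / ‖x - c‖) ^ (1 - a) := by
      unfold sf
      apply Real.rpow_le_rpow (div_pos hR (rho_pos ht _)).le _ (by linarith)
      apply div_le_div_of_nonneg_left hR.le hr0
      unfold rho
      rw [min_eq_left hr]; exact le_max_right _ _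
    calc sf a R t ‖x - c‖ ^ Module.finrank ℝ E
        ≤ ((R / ‖x - c‖) ^ (1 - a)) ^ Module.finrank ℝ E :=
          pow_le_pow_left₀ (sf_pos hR ht _).le h1 _
      _ = (‖x - c‖ / R) ^ (-((1 - a) * Module.finrank ℝ E)) := by
          rw [← Real.rpow_natCast, ← Real.rpow_mul (by positivity), Real.rpow_neg (by positivity),
            ← Real.inv_rpow (by positivity), inv_div]
  · rw [Set.indicator_of_notMem hxm]; simp

end Pool.Agent.Y796.QS
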