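import Pool.Agent.Y796.QS.D
import Pool.Agent.Y796.QS.I
import Pool.Agent.Y796.QS.J

set_option autoImplicit false

/-! The weak derivative of the map. -/

namespace Pool.Agent.Y796.QS

open MeasureTheory Topology Metric
open scoped ENNReal ContDiff NNReal

variable {E : Type*} [NormedAddCommGroup E] [InnerProductSpace ℝ E] [FiniteDimensional ℝ E]
  [MeasurableSpace E] [BorelSpace E] [Nontrivial E]
  (μ : Measure E) [μ.IsAddHaarMeasure]

variable {a B : ℝ} {om : ℝ → ℝ} {ι : Type*} {c : ι → E} {R t : ι → ℝ}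

theorem measurable_sf (a R t : ℝ) (c : E) : Measurable fun x : E => sf a R t ‖x - c‖ := by
  unfold sf rho
  have h : Measurable fun x : E => ‖x - c‖ := (measurable_id.sub_const c).norm
  exact (measurable_const.div (measurable_const.max (h.min measurable_const))).pow_const _

/-- one piece of the dominating function -/
noncomputable def pc (a R t : ℝ) (c : E) (x : E) : ℝ≥0∞ :=
  (closedBall c R).indicator (fun x => ENNReal.ofReal (sf a R t ‖x - c‖ ^ Module.finrank ℝ E)) x

theorem measurable_pc (a R t : ℝ) (c : E) : Measurable (pc a R t c) :=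
  (ENNReal.measurable_ofReal.comp ((measurable_sf a R t c).pow_const _)).indicator
    isClosed_closedBall.measurableSet

namespace Fam

variable (H : Fam a om B c R t)
include H

theorem sum_vol [Countable ι] (μ : Measure E) [μ.IsAddHaarMeasure] : ∑' i, ENNReal.ofReal (R i ^ Module.finrank ℝ E) < ⊤ := by
  have h1 : ∑' i, μ (closedBall (c i) (R i)) < ⊤ := by
    rw [← measure_iUnion _ (fun i => isClosed_closedBall.measurableSet)]
    · refine (measure_mono (t := closedBall (0 : E) (B + 1)) ?_).trans_lt measure_closedBall_lt_top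
      intro x hx
      rw [Set.mem_iUnion] at hx
      obtain ⟨i, hi⟩ := hx
      rw [mem_closedBall, dist_eq_norm] at hi
      rw [mem_closedBall_zero_iff]
      have := H.bdd i
      have := H.R1 i
      calc ‖x‖ = ‖(x - c i) + c i‖ := by congr 1; abel
        _ ≤ ‖x - c i‖ + ‖c i‖ := norm_add_le _ _
        _ ≤ _ := by linarith
    · intro i j hij
      rw [Function.onFun, Set.disjoint_left]
      intro x hx hy
      rw [mem_closedBall, dist_eq_norm] at hx hy
      exact hij (H.uniq hx hy)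
  have h2 : ∀ i, μ (closedBall (c i) (R i)) =
      ENNReal.ofReal (R i ^ Module.finrank ℝ E) * μ (ball 0 1) :=
    fun i => Measure.addHaar_closedBall μ (c i) (H.R0 i).le
  simp_rw [h2] at h1
  rw [ENNReal.tsum_mul_right] at h1
  by_contra h3
  rw [not_lt, top_le_iff] at h3
  rw [h3, ENNReal.top_mul (measure_ball_pos μ 0 one_pos).ne'] at h1
  exact lt_irrefl _ h1

theorem lint_pc (i : ι) : ∫⁻ x, pc a (R i) (t i) (c i) x ∂μ ≤
    ENNReal.ofReal (R i ^ Module.finrank ℝ E) * Cst μ a := by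
  unfold pc
  rw [lintegral_indicator isClosed_closedBall.measurableSet]
  exact lint_sf μ H.a1 (H.t0 i) (H.tR i) (c i)

theorem lint_dens [Countable ι] : ∑' i, ∫⁻ x, pc a (R i) (t i) (c i) x ∂μ < ⊤ := by
  refine (ENNReal.tsum_le_tsum fun i => H.lint_pc μ i).trans_lt ?_
  rw [ENNReal.tsum_mul_right]
  exact ENNReal.mul_lt_top (H.sum_vol μ) (Cst_lt_top μ H.a0)

theorem fderiv_sum_apply {x : E} (v : E)
    (hx : (∃ i A, Pt a (R i) (t i) (c i) x A) ∨ (x ≠ 0 ∧ ∀ i, R i < ‖x - c i‖)) :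
    fderiv ℝ (f a c R t) x v = v + ∑' i, fderiv ℝ (g a (R i) (t i) (c i)) x v := by
  rcases hx with ⟨i, A, h⟩ | ⟨h0, h⟩
  · rw [(H.in_f h).fderiv, tsum_eq_single i (fun j hj => by
      rw [(H.in_g_other h hj).fderiv]; rfl), (H.in_g h).fderiv]
    simp
  · rw [(H.out_f h0 h).fderiv]
    have : ∀ i, fderiv ℝ (g a (R i) (t i) (c i)) x v = 0 := fun i => by
      rw [(H.out_g h0 h i).fderiv]; rfl
    simp [this]

theorem one_le_sfpow (i : ι) (x : E) : 1 ≤ sf a (R i) (t i) ‖x - c i‖ :=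
  one_le_sf H.a1 (H.t0 i) (H.tR i) _

/-- domination of the pieces of the displacement -/
theorem dom_g (i : ι) (x : E) : ‖g a (R i) (t i) (c i) x‖ₑ ≤ pc a (R i) (t i) (c i) x := by
  by_cases hx : x ∈ closedBall (c i) (R i)
  · unfold pc
    rw [Set.indicator_of_mem hx, ← ofReal_norm]
    apply ENNReal.ofReal_le_ofReal
    rw [mem_closedBall, dist_eq_norm] at hx
    have h1 := norm_g_le (c := c i) (H.R0 i) H.a0 H.a1 (H.t0 i) (H.tR i) hx
    have h2 := H.R1 i
    have h3 := norm_nonneg (x - c i)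
    have h4 := one_le_pow₀ (n := Module.finrank ℝ E) (H.one_le_sfpow i x)
    linarith
  · rw [mem_closedBall, dist_eq_norm, not_le] at hx
    rw [g_zero (H.t0 i) (H.tR i) hx.le, enorm_zero]
    exact zero_le

theorem dom_fderiv_g {x : E}
    (hx : (∃ i A, Pt a (R i) (t i) (c i) x A) ∨ (x ≠ 0 ∧ ∀ i, R i < ‖x - c i‖)) (i : ι) :
    ‖fderiv ℝ (g a (R i) (t i) (c i)) x‖ₑ ≤ 2 * pc a (R i) (t i) (c i) x := by
  have h := H.fderiv_g_bound hx i
  unfold pc
  by_cases hm : x ∈ closedBall (c i) (R i)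
  · rw [Set.indicator_of_mem hm] at h ⊢
    rw [← ofReal_norm, ← ENNReal.ofReal_ofNat 2, ← ENNReal.ofReal_mul (by norm_num)]
    apply ENNReal.ofReal_le_ofReal
    refine h.trans ?_
    have h4 : sf a (R i) (t i) ‖x - c i‖ ≤ sf a (R i) (t i) ‖x - c i‖ ^ Module.finrank ℝ E :=
      le_self_pow₀ (H.one_le_sfpow i x) Module.finrank_pos.ne'
    linarith
  · rw [Set.indicator_of_notMem hm] at h
    have : fderiv ℝ (g a (R i) (t i) (c i)) x = 0 := norm_le_zero_iff.1 h
    rw [this, enorm_zero]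
    exact zero_le

theorem dom_fderiv_f {x : E}
    (hx : (∃ i A, Pt a (R i) (t i) (c i) x A) ∨ (x ≠ 0 ∧ ∀ i, R i < ‖x - c i‖)) {k : ℕ}
    (hk1 : k ≤ Module.finrank ℝ E) :
    ‖fderiv ℝ (f a c R t) x‖ₑ ^ k ≤ 1 + ∑' i, pc a (R i) (t i) (c i) x := by
  rcases hx with ⟨i, A, h⟩ | ⟨h0, h⟩
  · rw [(H.in_f h).fderiv]
    have hm : x ∈ closedBall (c i) (R i) := by
      rw [mem_closedBall, dist_eq_norm]; exact h.1.le
    have h1 : ‖A‖ₑ ^ k ≤ pc a (R i) (t i) (c i) x := by
      unfold pc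
      rw [Set.indicator_of_mem hm, ← ofReal_norm, ← ENNReal.ofReal_pow (norm_nonneg _)]
      apply ENNReal.ofReal_le_ofReal
      exact (pow_le_pow_left₀ (norm_nonneg _) h.2.2.1 k).trans
        (pow_le_pow_right₀ (H.one_le_sfpow i x) hk1)
    exact h1.trans ((ENNReal.le_tsum i).trans le_add_self)
  · rw [(H.out_f h0 h).fderiv, ← ofReal_norm, ContinuousLinearMap.norm_id]
    simp

theorem lint_fderiv [Countable ι] {k : ℕ} (hk1 : k ≤ Module.finrank ℝ E) {F : Set E}
    (hF : μ F < ⊤) :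
    ∫⁻ x in F, ‖fderiv ℝ (f a c R t) x‖ₑ ^ k ∂μ < ⊤ := by
  have h1 : ∫⁻ x in F, ‖fderiv ℝ (f a c R t) x‖ₑ ^ k ∂μ ≤
      ∫⁻ x in F, (1 + ∑' i, pc a (R i) (t i) (c i) x) ∂μ := by
    apply lintegral_mono_ae
    filter_upwards [ae_restrict_of_ae (H.ae_cases μ)] with x hx
    exact H.dom_fderiv_f hx hk1
  refine h1.trans_lt ?_
  rw [lintegral_add_left measurable_const]
  refine ENNReal.add_lt_top.2 ⟨by simpa using hF, ?_⟩
  refine (setLIntegral_le_lintegral _ _).trans_lt ?_
  rw [lintegral_tsum fun i => (measurable_pc _ _ _ _).aemeasurable]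
  exact H.lint_dens μ

theorem locInt [Countable ι] : LocallyIntegrable (fderiv ℝ (f a c R t)) μ := by
  rw [locallyIntegrable_iff]
  intro F hF
  refine ⟨(measurable_fderiv ℝ _).aestronglyMeasurable, ?_⟩
  have := H.lint_fderiv μ (k := 1) Module.finrank_pos hF.measure_lt_top
  simpa [HasFiniteIntegral] using this

theorem weak [Countable ι] {φ : E → ℝ} (hφ : ContDiff ℝ ∞ φ) (hc : HasCompactSupport φ) (v : E) :
    ∫ x, (fderiv ℝ φ x v) • f a c R t x ∂μ = - ∫ x, φ x • (fderiv ℝ (f a c R t) x v) ∂μ := by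
  -- bounds for the test function
  obtain ⟨M, hM⟩ := hφ.continuous.bounded_above_of_compact_support hc
  have hM0 : 0 ≤ M := (norm_nonneg _).trans (hM 0)
  have hd : Continuous fun x => fderiv ℝ φ x v :=
    (hφ.continuous_fderiv (by simp)).clm_apply continuous_const
  have hs : HasCompactSupport fun x => fderiv ℝ φ x v := by
    have := hc.fderiv (𝕜 := ℝ)
    exact this.comp_left (g := fun L : E →L[ℝ] ℝ => L v) (by simp)
  obtain ⟨M', hM'⟩ := hd.bounded_above_of_compact_support hs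
  have gl : ∀ i, LipschitzWith _ (g a (R i) (t i) (c i)) :=
    fun i => g_lipschitz (c := c i) (H.R0 i) H.a0 H.a1 (H.t0 i)
  -- left side
  have i1 : Integrable (fun x => (fderiv ℝ φ x v) • x) μ := ibp_int1 continuous_id hφ hc v
  have i2 : Integrable (fun x => (fderiv ℝ φ x v) • (f a c R t x - x)) μ :=
    ibp_int1 (H.continuous.sub continuous_id) hφ hc v
  have e1 : ∫ x, (fderiv ℝ φ x v) • f a c R t x ∂μ =
      ∫ x, (fderiv ℝ φ x v) • x ∂μ + ∫ x, (fderiv ℝ φ x v) • (f a c R t x - x) ∂μ := by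
    rw [← integral_add i1 i2]
    congr 1; ext1 x
    rw [← smul_add]; congr 1; abel
  have e2 : ∫ x, (fderiv ℝ φ x v) • (f a c R t x - x) ∂μ =
      ∑' i, ∫ x, (fderiv ℝ φ x v) • g a (R i) (t i) (c i) x ∂μ := by
    rw [← integral_tsum]
    · congr 1; ext1 x
      rw [tsum_const_smul'']
      congr 1
      unfold f
      abel
    · intro i
      exact (hd.smul (gl i).continuous).aestronglyMeasurable
    · apply ne_of_lt
      have h1 : ∀ i, ∫⁻ x, ‖(fderiv ℝ φ x v) • g a (R i) (t i) (c i) x‖ₑ ∂μ ≤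
          ENNReal.ofReal M' * ∫⁻ x, pc a (R i) (t i) (c i) x ∂μ := by
        intro i
        rw [← lintegral_const_mul _ (measurable_pc _ _ _ _)]
        apply lintegral_mono
        intro x
        beta_reduce
        rw [enorm_smul]
        gcongr
        · rw [← ofReal_norm]; exact ENNReal.ofReal_le_ofReal (hM' x)
        · exact H.dom_g i x
      refine (ENNReal.tsum_le_tsum h1).trans_lt ?_
      rw [ENNReal.tsum_mul_left]
      exact ENNReal.mul_lt_top ENNReal.ofReal_lt_top (H.lint_dens μ)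
  -- right side
  have j1 : Integrable (fun x => φ x • v) μ :=
    (hφ.continuous.integrable_of_hasCompactSupport hc).smul_const v
  have j2 : Integrable (fun x => φ x • (fderiv ℝ (f a c R t) x v)) μ := by
    have l1 : LocallyIntegrable (fun x => fderiv ℝ (f a c R t) x v) μ := by
      intro x
      obtain ⟨s, hs, hi⟩ := H.locInt μ x
      exact ⟨s, hs, (ContinuousLinearMap.apply ℝ E v).integrable_comp hi⟩
    exact l1.integrable_smul_left_of_hasCompactSupport hφ.continuous hc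
  have j3 : Integrable (fun x => φ x • (fderiv ℝ (f a c R t) x v) - φ x • v) μ := j2.sub j1
  have f1 : ∫ x, φ x • (fderiv ℝ (f a c R t) x v) ∂μ =
      ∫ x, φ x • v ∂μ + ∫ x, (φ x • (fderiv ℝ (f a c R t) x v) - φ x • v) ∂μ := by
    rw [← integral_add j1 j3]
    congr 1; ext1 x; abel
  have f2 : ∫ x, (φ x • (fderiv ℝ (f a c R t) x v) - φ x • v) ∂μ =
      ∑' i, ∫ x, φ x • (fderiv ℝ (g a (R i) (t i) (c i)) x v) ∂μ := by
    rw [← integral_tsum]
    · apply integral_congr_ae
      filter_upwards [H.ae_cases μ] with x hx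
      rw [H.fderiv_sum_apply v hx, tsum_const_smul'', smul_add]
      abel
    · intro i
      exact hφ.continuous.aestronglyMeasurable.smul
        (measurable_fderiv_apply_const ℝ _ v).aestronglyMeasurable
    · apply ne_of_lt
      have h1 : ∀ i, ∫⁻ x, ‖φ x • (fderiv ℝ (g a (R i) (t i) (c i)) x v)‖ₑ ∂μ ≤
          (ENNReal.ofReal M * (2 * ‖v‖ₑ)) * ∫⁻ x, pc a (R i) (t i) (c i) x ∂μ := by
        intro i
        rw [← lintegral_const_mul _ (measurable_pc _ _ _ _)]
        apply lintegral_mono_ae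
        filter_upwards [H.ae_cases μ] with x hx
        rw [enorm_smul, mul_assoc]
        gcongr
        · rw [← ofReal_norm]; exact ENNReal.ofReal_le_ofReal (hM x)
        · calc ‖fderiv ℝ (g a (R i) (t i) (c i)) x v‖ₑ
              ≤ ‖fderiv ℝ (g a (R i) (t i) (c i)) x‖ₑ * ‖v‖ₑ := ContinuousLinearMap.le_opENorm _ _
            _ ≤ (2 * pc a (R i) (t i) (c i) x) * ‖v‖ₑ := by
                gcongr; exact H.dom_fderiv_g hx i
            _ = _ := by ring
      refine (ENNReal.tsum_le_tsum h1).trans_lt ?_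
      rw [ENNReal.tsum_mul_left]
      exact ENNReal.mul_lt_top (ENNReal.mul_lt_top ENNReal.ofReal_lt_top
        (ENNReal.mul_lt_top (by simp) (by simp))) (H.lint_dens μ)
  have k1 : ∫ x, (fderiv ℝ φ x v) • x ∂μ = - ∫ x, φ x • v ∂μ := by
    have := ibp (μ := μ) (h := fun x : E => x) (C := 1) LipschitzWith.id hφ hc v
    simpa using this
  have k2 : ∀ i, ∫ x, (fderiv ℝ φ x v) • g a (R i) (t i) (c i) x ∂μ =
      - ∫ x, φ x • (fderiv ℝ (g a (R i) (t i) (c i)) x v) ∂μ := fun i => ibp (gl i) hφ hc v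
  rw [e1, e2, k1, f1, f2]
  simp_rw [k2]
  rw [tsum_neg]
  abel

/-- the quasiconformality inequality -/
theorem qc [Countable ι] : ∀ᵐ x ∂μ, ‖fderiv ℝ (f a c R t) x‖ ^ Module.finrank ℝ E ≤
    (1 / a) * (fderiv ℝ (f a c R t) x).det := by
  filter_upwards [H.ae_cases μ] with x hx
  rcases hx with ⟨i, A, h⟩ | ⟨h0, h⟩
  · rw [(H.in_f h).fderiv]; exact h.2.2.2.1
  · rw [(H.out_f h0 h).fderiv, ContinuousLinearMap.norm_id]
    have : (ContinuousLinearMap.id ℝ E).det = 1 := by
      unfold ContinuousLinearMap.det; simp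
    rw [this, one_pow, mul_one, one_le_div H.a0]
    exact H.a1.le

/-- divergence of the integral of a higher power -/
theorem diverge [Countable ι] {p : ℝ} (hp : 0 < p)
    (hdiv : ∑' i, ENNReal.ofReal (((R i / t i) ^ (1 - a)) ^ p * t i ^ Module.finrank ℝ E) = ⊤) :
    ∫⁻ x in closedBall (0 : E) (B + 1), ‖fderiv ℝ (f a c R t) x‖ₑ ^ p ∂μ = ⊤ := by
  rw [← top_le_iff]
  have hsub : (⋃ i, ball (c i) (t i)) ⊆ closedBall (0 : E) (B + 1) := by
    intro x hx
    rw [Set.mem_iUnion] at hx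
    obtain ⟨i, hi⟩ := hx
    rw [mem_ball, dist_eq_norm] at hi
    rw [mem_closedBall_zero_iff]
    have := H.bdd i
    have := H.R1 i
    have := H.tR i
    calc ‖x‖ = ‖(x - c i) + c i‖ := by congr 1; abel
      _ ≤ ‖x - c i‖ + ‖c i‖ := norm_add_le _ _
      _ ≤ _ := by linarith
  have h1 : ∫⁻ x in ⋃ i, ball (c i) (t i), ‖fderiv ℝ (f a c R t) x‖ₑ ^ p ∂μ =
      ∑' i, ∫⁻ x in ball (c i) (t i), ‖fderiv ℝ (f a c R t) x‖ₑ ^ p ∂μ := by
    apply lintegral_iUnion (fun i => measurableSet_ball)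
    intro i j hij
    rw [Function.onFun, Set.disjoint_left]
    intro x hx hy
    rw [mem_ball, dist_eq_norm] at hx hy
    exact hij (H.uniq (hx.le.trans (H.tR i)) (hy.le.trans (H.tR j)))
  have h2 : ∀ i, ENNReal.ofReal (((R i / t i) ^ (1 - a)) ^ p * t i ^ Module.finrank ℝ E) *
      μ (ball 0 1) ≤ ∫⁻ x in ball (c i) (t i), ‖fderiv ℝ (f a c R t) x‖ₑ ^ p ∂μ := by
    intro i
    have hq : 0 < R i / t i := div_pos (H.R0 i) (H.t0 i)
    have e : ENNReal.ofReal (((R i / t i) ^ (1 - a)) ^ p * t i ^ Module.finrank ℝ E) *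
        μ (ball 0 1) = ∫⁻ x in ball (c i) (t i), ENNReal.ofReal (((R i / t i) ^ (1 - a)) ^ p) ∂μ := by
      rw [setLIntegral_const, Measure.addHaar_ball μ (c i) (H.t0 i).le,
        ENNReal.ofReal_mul (by positivity), mul_assoc]
    rw [e]
    apply setLIntegral_mono_ae' measurableSet_ball
    filter_upwards [H.ae_cases μ] with x hx hxb
    rw [mem_ball, dist_eq_norm] at hxb
    rcases hx with ⟨j, A, h⟩ | ⟨h0, h⟩
    · have hji : j = i := H.uniq h.1.le (hxb.le.trans (H.tR i))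
      subst hji
      rw [(H.in_f h).fderiv, ← ofReal_norm, h.2.2.2.2 hxb,
        ENNReal.ofReal_rpow_of_nonneg (by positivity) hp.le]
    · exact absurd (hxb.le.trans (H.tR i)) (not_le.2 (h i))
  calc (⊤ : ℝ≥0∞) = ∑' i, ENNReal.ofReal (((R i / t i) ^ (1 - a)) ^ p *
        t i ^ Module.finrank ℝ E) * μ (ball 0 1) := by
        rw [ENNReal.tsum_mul_right, hdiv, ENNReal.top_mul (measure_ball_pos μ 0 one_pos).ne']
    _ ≤ ∑' i, ∫⁻ x in ball (c i) (t i), ‖fderiv ℝ (f a c R t) x‖ₑ ^ p ∂μ :=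
        ENNReal.tsum_le_tsum h2
    _ = _ := h1.symm
    _ ≤ _ := lintegral_mono_set hsub

end Fam

end Pool.Agent.Y796.QS
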